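import Pool.Agent.TH678.TG.Final3
import Pool.Agent.W900.CH.NELev
import Pool.Agent.W900.CH.PLev

/-! The number of changed strings and the time bounds -/

namespace Pool.Agent.TH678.TG

open Pool.Agent.NPC Pool.Agent.H622R2 Pool.Agent.H620R2.Gauge Filter Pool.Agent.TH678.ETH
  Pool.Agent.W900.CH MeasureTheory
open Pool.Agent.H628R3.RO (randomOracle)

theorem exists_big {v : ℕ → ℕ} (hlog : ∀ᶠ n : ℕ in atTop, Nat.log 2 n ≤ v n)
    (h4 : ∀ᶠ n : ℕ in atTop, 4 * v n ≤ n) :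
    ∀ᶠ j : ℕ in atTop, ∃ n, v n ≤ j ∧ 4 * (j + 1) ≤ n + 1 := by
  obtain ⟨n₂, hn₂⟩ := Filter.eventually_atTop.1 (hlog.and h4)
  filter_upwards [eventually_ge_atTop (v n₂)] with j hj
  set n' := Nat.findGreatest (fun m => v m ≤ j) (2 ^ (j + 1) + n₂) with hn'
  have h3 : n₂ ≤ n' := Nat.le_findGreatest (Nat.le_add_left _ _) hj
  have h5 : v n' ≤ j := Nat.findGreatest_spec (P := fun m => v m ≤ j) (m := n₂)
    (Nat.le_add_left _ _) hj
  have h6 : j < v (n' + 1) := by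
    by_contra hcon
    push Not at hcon
    have h7 := (hn₂ (n' + 1) (by omega)).1
    have h8 : n' + 1 < 2 ^ (j + 1) := Nat.lt_pow_of_log_lt (by norm_num) (by omega)
    have h9 := Nat.le_findGreatest (P := fun m => v m ≤ j) (m := n' + 1)
      (n := 2 ^ (j + 1) + n₂) (by omega) hcon
    omega
  have h7 := (hn₂ (n' + 1) (by omega)).2
  exact ⟨n', h5, by omega⟩

/-- the gauge that belongs to a number of changes -/
noncomputable def gau (g : ℕ → ℝ) (n₁ N : ℕ) : ℝ :=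
  if n₁ ≤ Nat.log 2 N then (⌊g (Nat.log 2 N)⌋₊ : ℝ) * Real.logb 2 (N + 1) else N

theorem gau_pow {g : ℕ → ℝ} {n₁ n : ℕ} (h : n₁ ≤ n) {b : ℝ} (hb : 0 ≤ b) (hg : g n ≤ b) :
    gau g n₁ (2 ^ n) ≤ b * (n + 1) := by
  have h6 : Nat.log 2 (2 ^ n) = n := Nat.log_pow (by norm_num) n
  unfold gau
  rw [h6, if_pos h]
  have h8 : Real.logb 2 (((2 ^ n : ℕ) : ℝ) + 1) ≤ n + 1 := by
    have h9 : (((2 ^ n : ℕ) : ℝ) + 1) ≤ 2 ^ (n + 1) := by
      push_cast
      have : (1 : ℝ) ≤ 2 ^ n := one_le_pow₀ (by norm_num)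
      rw [pow_succ]
      linarith
    have h10 := Real.logb_le_logb_of_le (b := 2) (by norm_num) (by positivity) h9
    refine h10.trans (le_of_eq ?_)
    rw [Real.logb_pow, Real.logb_self_eq_one (by norm_num), mul_one]
    push_cast
    ring
  have h11 : (⌊g n⌋₊ : ℝ) ≤ b := by
    rcases le_total 0 (g n) with h | h
    · exact (Nat.floor_le h).trans hg
    · rw [Nat.floor_of_nonpos h]
      push_cast
      exact hb
  refine mul_le_mul h11 h8 ?_ hb
  apply Real.logb_nonneg (by norm_num)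
  have : (0 : ℝ) ≤ ((2 ^ n : ℕ) : ℝ) := by positivity
  linarith

/-- the transfer lemma -/
theorem ae_far_gau {S : Set Oracle} {g : ℕ → ℝ} (hS : ∀ n₁, Null (gau g n₁) S) :
    ∀ᵐ O ∂randomOracle, ∀ A, Close g O A → A ∉ S := by
  classical
  refine ae_far_of fun n₁ => ?_
  refine measure_far (f := gau g n₁) (hS n₁) _ (fun N => if n₁ ≤ Nat.log 2 N then
    (Finset.range N).powerset.filter (fun D => D.card ≤ ⌊g (Nat.log 2 N)⌋₊)
    else (Finset.range N).powerset) ?_ ?_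
  · intro N
    unfold gau
    by_cases h : n₁ ≤ Nat.log 2 N
    · rw [if_pos h, if_pos h]
      have h1 := card_small N ⌊g (Nat.log 2 N)⌋₊
      have h2 : (((Finset.range N).powerset.filter
          (fun D => D.card ≤ ⌊g (Nat.log 2 N)⌋₊)).card : ℝ) ≤
          ((N : ℝ) + 1) ^ ⌊g (Nat.log 2 N)⌋₊ := by exact_mod_cast h1
      refine h2.trans (le_of_eq ?_)
      have h3 : (0 : ℝ) < (N : ℝ) + 1 := by positivity
      rw [mul_comm, Real.rpow_mul (by norm_num), Real.rpow_logb (by norm_num) (by norm_num) h3,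
        Real.rpow_natCast]
    · rw [if_neg h, if_neg h, Finset.card_powerset, Finset.card_range, Real.rpow_natCast]
      push_cast
      exact le_rfl
  · rintro O ⟨A, hA, hd⟩
    refine ⟨A, hA, fun N => ?_⟩
    have hsub : diffN O A N ⊆ Finset.range N := Finset.filter_subset _ _
    by_cases h : n₁ ≤ Nat.log 2 N
    · rw [if_pos h, Finset.mem_filter, Finset.mem_powerset]
      refine ⟨hsub, Nat.le_floor ?_⟩
      exact (Nat.cast_le.2 (card_diffN_le O A N)).trans (hd _ h)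
    · rw [if_neg h, Finset.mem_powerset]
      exact hsub

/-- every oracle can be changed at the strings which the gauge permits -/
theorem exists_close_fast {g : ℕ → ℝ} (hg : ∀ᶠ n : ℕ in atTop, 0 ≤ g n) (O : Oracle) :
    ∃ A, Close g O A ∧ Fast (fun N => g (Nat.log 2 N - 1)) A := by
  classical
  obtain ⟨b, Φ, hΦ1, hΦ2⟩ := exists_fast (fun N => g (Nat.log 2 N - 1))
  refine ⟨Φ O, ?_, hΦ2 O⟩
  unfold Close
  filter_upwards [hg] with n hn
  have h5 := dist_le_of_off (O := O) (A := Φ O)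
    (T := Set.range (cz (fun N => g (Nat.log 2 N - 1)) b)) (fun y hy => hΦ1 O y hy) n
  have h6 : (dist O (Φ O) n : ℝ) ≤ (((Finset.range (2 ^ (n + 1))).filter
      (fun i => str i ∈ Set.range (cz (fun N => g (Nat.log 2 N - 1)) b))).card : ℝ) := by
    exact_mod_cast h5
  refine h6.trans ?_
  rcases countz (fun N => g (Nat.log 2 N - 1)) b (2 ^ (n + 1)) with h | h
  · rw [h]
    simpa using hn
  · refine h.trans (le_of_eq ?_)
    rw [Nat.log_pow (by norm_num), Nat.add_sub_cancel]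

/-- the condition on the number of changes, for unions -/
def GU (U : ℕ → ℕ → ℕ) (g : ℕ → ℝ) : Prop :=
  ∀ k, ∃ᶠ n : ℕ in atTop, ∃ m : ℕ, 2 ^ U k m ≤ n ∧ g n ≤ 2 ^ m

theorem TU_gau {U : ℕ → ℕ → ℕ} (hU : Nice U) {g : ℕ → ℝ} (hg : GU U g) (n₁ : ℕ) :
    TU U (gau g n₁) := by
  intro k
  obtain ⟨kl, hkl⟩ := hU.log
  obtain ⟨k', hk'⟩ := hU.closed k 2
  set K := max k' kl with hK
  have h1 : ∀ᶠ n : ℕ in atTop, Nat.log 2 n ≤ U K n := by
    filter_upwards [hkl] with n hn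
    exact hn.trans (hU.mono n (le_max_right _ _))
  have ht : Tendsto (fun n : ℕ => Nat.log 2 n) atTop atTop := tendsto_natlog
  obtain ⟨m₀, hm₀⟩ := Filter.eventually_atTop.1 hk'
  have key : ∃ᶠ n : ℕ in atTop, ∃ m : ℕ, 2 ^ 2 ^ U k m ≤ 2 ^ n ∧ gau g n₁ (2 ^ n) ≤ 2 ^ m := by
    refine ((hg K).and_eventually ((ht.eventually (exists_big h1 (hU.small K))).and
      ((ht.eventually_ge_atTop (m₀ + 4)).and (eventually_ge_atTop (n₁ + 1))))).mono ?_
    rintro n ⟨⟨m, hm, hgm⟩, ⟨m', hm', hm'2⟩, h2, h3⟩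
    have hm2 : U K m ≤ Nat.log 2 n := by
      have := Nat.log_mono_right (b := 2) hm
      rwa [Nat.log_pow (by norm_num)] at this
    obtain ⟨M, hM1, hM2, hM3⟩ : ∃ M, m' ≤ M ∧ m ≤ M ∧ U K M ≤ Nat.log 2 n := by
      rcases le_total m m' with h | h
      · exact ⟨m', le_rfl, h, hm'⟩
      · exact ⟨m, h, le_rfl, hm2⟩
    have h4 := hm₀ M (by omega)
    have h5 : U k' M ≤ U K M := hU.mono M (le_max_left _ _)
    refine ⟨2 * M, Nat.pow_le_pow_right (by norm_num) ?_, ?_⟩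
    · calc 2 ^ U k (2 * M) ≤ 2 ^ Nat.log 2 n := Nat.pow_le_pow_right (by norm_num) (by omega)
        _ ≤ n := Nat.pow_log_le_self 2 (by omega)
    · refine (gau_pow (by omega) (by positivity) (hgm.trans (pow_le_pow_right₀ (by norm_num)
        hM2))).trans ?_
      have h6 : n < 2 ^ (Nat.log 2 n + 1) := Nat.lt_pow_succ_log_self (by norm_num) n
      have h7 : n + 1 ≤ 2 ^ M := le_trans h6 (Nat.pow_le_pow_right (by norm_num) (by omega))
      have h8 : ((n : ℝ) + 1) ≤ 2 ^ M := by exact_mod_cast h7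
      calc (2 : ℝ) ^ M * (n + 1) ≤ 2 ^ M * 2 ^ M := by gcongr
        _ = 2 ^ (2 * M) := by rw [← pow_add]; congr 1; ring
  exact (tendsto_pow_atTop_atTop_of_one_lt (by norm_num : 1 < 2)).frequently key

theorem not_TU_of_GU {U : ℕ → ℕ → ℕ} (hU : Nice U) {g : ℕ → ℝ} (hg : ¬ GU U g) :
    ¬ TU U (fun N => g (Nat.log 2 N - 1)) := by
  unfold GU at hg
  push Not at hg
  obtain ⟨k₀, hk₀⟩ := hg
  obtain ⟨k, hk⟩ := hU.closed k₀ 1
  obtain ⟨m₀, hm₀⟩ := Filter.eventually_atTop.1 hk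
  obtain ⟨B, hB⟩ : ∃ B, ∀ m < m₀, 2 ^ U k₀ m ≤ B := by
    refine ⟨∑ m ∈ Finset.range m₀, 2 ^ U k₀ m, fun m hm => ?_⟩
    exact Finset.single_le_sum (f := fun m => 2 ^ U k₀ m) (fun _ _ => Nat.zero_le _)
      (Finset.mem_range.2 hm)
  have ht : Tendsto (fun N : ℕ => Nat.log 2 N - 1) atTop atTop :=
    (tendsto_sub_atTop_nat 1).comp tendsto_natlog
  unfold TU
  push Not
  refine ⟨k, ?_⟩
  filter_upwards [ht.eventually hk₀, ht.eventually_ge_atTop (B + 1),
    eventually_ge_atTop 4] with N h1 h2 h3 m hm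
  apply h1 m
  rcases lt_or_ge m m₀ with h | h
  · exact (hB m h).trans (by omega)
  · have h4 := hm₀ m h
    have h5 : 2 ^ U k m ≤ Nat.log 2 N := by
      have := Nat.log_mono_right (b := 2) hm
      rwa [Nat.log_pow (by norm_num)] at this
    have h6 : 2 ^ (U k₀ m + 1) ≤ 2 ^ U k m := Nat.pow_le_pow_right (by norm_num) (by
      simp only [one_mul] at h4
      exact h4)
    have h7 : 1 ≤ 2 ^ U k₀ m := Nat.one_le_two_pow
    rw [pow_succ] at h6
    omega

theorem not_GU_nonneg {U : ℕ → ℕ → ℕ} {g : ℕ → ℝ} (hg : ¬ GU U g) :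
    ∀ᶠ n : ℕ in atTop, 0 ≤ g n := by
  unfold GU at hg
  push Not at hg
  obtain ⟨k₀, hk₀⟩ := hg
  filter_upwards [hk₀, eventually_ge_atTop (2 ^ U k₀ 0)] with n hn hn'
  have := hn 0 hn'
  rw [pow_zero] at this
  linarith

theorem change_union {U : ℕ → ℕ → ℕ} (hU : Nice U) (g : ℕ → ℝ) :
    (GU U g → ∀ᵐ O ∂randomOracle, ∀ A, Close g O A → ¬ InA U A (Hit A)ᶜ) ∧
    (¬ GU U g → ∀ O : Oracle, ∃ A, Close g O A ∧ ∀ L, IsPSPACE A L → InD U A L) := by
  constructor
  · intro h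
    refine ae_far_gau (S := {A | InA U A (Hit A)ᶜ}) fun n₁ => ?_
    exact null_union_law hU (TU_gau hU h n₁) _ fun A hA => by rw [← hit_eq]; exact hA
  · intro h O
    obtain ⟨A, h1, h2⟩ := exists_close_fast (not_GU_nonneg h) O
    exact ⟨A, h1, fast_inD hU (not_TU_of_GU hU h) h2⟩

/-! ### The exponents -/

/-- the condition on the number of changes, for the exponent `s` -/
def GP (s : ℝ) (g : ℕ → ℝ) : Prop :=
  ∃ a : ℝ, a * s < 1 ∧ ∃ᶠ n : ℕ in atTop, g n ≤ 2 ^ (Real.logb 2 n) ^ a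

theorem TP_gau {s : ℝ} (hs : 0 ≤ s) (hs1 : s < 1) {g : ℕ → ℝ} (hg : GP s g) (n₁ : ℕ) :
    TP s (gau g n₁) := by
  obtain ⟨a, ha, hga⟩ := hg
  obtain ⟨c, hc1, hca, hcs⟩ : ∃ c : ℝ, 1 < c ∧ a < c ∧ c * s < 1 := by
    rcases hs.eq_or_lt with rfl | h
    · exact ⟨max a 1 + 1, by linarith [le_max_right a 1], by linarith [le_max_left a 1], by simp⟩
    · have h1 : max a 1 < 1 / s := max_lt (by rwa [lt_div_iff₀ h]) (by rwa [lt_div_iff₀ h, one_mul])
      obtain ⟨c, h2, h3⟩ := exists_between h1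
      exact ⟨c, lt_of_le_of_lt (le_max_right _ _) h2, lt_of_le_of_lt (le_max_left _ _) h2,
        by rwa [lt_div_iff₀ h] at h3⟩
  refine ⟨c, hcs, ?_⟩
  have hlogn : Tendsto (fun n : ℕ => Real.logb 2 (n : ℝ)) atTop atTop := H529R3.Gap.tendsto_log
  have e1 : ∀ᶠ x : ℝ in atTop, x ^ a + (x + 1) ≤ x ^ c := by
    set d := max a 1 with hd
    have hdc : d < c := max_lt hca hc1
    filter_upwards [(tendsto_rpow_atTop (show 0 < c - d by linarith)).eventually_ge_atTop 3,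
      eventually_ge_atTop 1] with x h1 h2
    have h3 : x ^ c = x ^ d * x ^ (c - d) := by
      rw [← Real.rpow_add (by linarith)]
      congr 1
      ring
    have h4 : x ^ a ≤ x ^ d := Real.rpow_le_rpow_of_exponent_le h2 (le_max_left _ _)
    have h5 : x ≤ x ^ d := by
      calc x = x ^ (1 : ℝ) := (Real.rpow_one x).symm
        _ ≤ x ^ d := Real.rpow_le_rpow_of_exponent_le h2 (le_max_right _ _)
    rw [h3]
    nlinarith
  have key : ∃ᶠ n : ℕ in atTop, gau g n₁ (2 ^ n) ≤ 2 ^ (ll (2 ^ n)) ^ c := by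
    refine (hga.and_eventually ((hlogn.eventually e1).and ((hlogn.eventually_ge_atTop 1).and
      (eventually_ge_atTop (n₁ + 1))))).mono ?_
    rintro n ⟨h1, h2, h3, h4⟩
    have hll : ll (2 ^ n) = Real.logb 2 n := by
      unfold ll
      push_cast
      rw [Real.logb_pow, Real.logb_self_eq_one (by norm_num), mul_one]
    have hn0 : (0 : ℝ) < n := by
      have : 0 < n := by omega
      exact_mod_cast this
    have hn1 : (1 : ℝ) ≤ n := by
      have : 1 ≤ n := by omega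
      exact_mod_cast this
    rw [hll]
    refine (gau_pow (by omega) (by positivity) h1).trans ?_
    have h5 : ((n : ℝ) + 1) ≤ 2 ^ (Real.logb 2 n + 1) := by
      rw [Real.rpow_add (by norm_num), Real.rpow_one, Real.rpow_logb (by norm_num)
        (by norm_num) hn0]
      linarith
    calc (2 : ℝ) ^ (Real.logb 2 n) ^ a * (n + 1)
        ≤ 2 ^ (Real.logb 2 n) ^ a * 2 ^ (Real.logb 2 n + 1) := by gcongr
      _ = 2 ^ ((Real.logb 2 n) ^ a + (Real.logb 2 n + 1)) := by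
          rw [← Real.rpow_add (by norm_num)]
      _ ≤ 2 ^ (Real.logb 2 n) ^ c := Real.rpow_le_rpow_of_exponent_le (by norm_num) h2
  exact (tendsto_pow_atTop_atTop_of_one_lt (by norm_num : 1 < 2)).frequently key

theorem not_GP {s : ℝ} (hs : 0 ≤ s) {g : ℕ → ℝ} (hg : ¬ GP s g) :
    ∀ a : ℝ, a * s < 1 → ∀ᶠ N : ℕ in atTop, 2 ^ (ll N) ^ a < g (Nat.log 2 N - 1) := by
  intro a ha
  unfold GP at hg
  push Not at hg
  obtain ⟨c, hc0, hca, hcs⟩ : ∃ c : ℝ, 0 < c ∧ a < c ∧ c * s < 1 := by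
    rcases hs.eq_or_lt with rfl | h
    · exact ⟨max a 0 + 1, by linarith [le_max_right a 0], by linarith [le_max_left a 0], by simp⟩
    · have h1 : max a 0 < 1 / s := max_lt (by rwa [lt_div_iff₀ h]) (by positivity)
      obtain ⟨c, h2, h3⟩ := exists_between h1
      exact ⟨c, lt_of_le_of_lt (le_max_right _ _) h2, lt_of_le_of_lt (le_max_left _ _) h2,
        by rwa [lt_div_iff₀ h] at h3⟩
  have ht : Tendsto (fun N : ℕ => Nat.log 2 N - 1) atTop atTop :=
    (tendsto_sub_atTop_nat 1).comp tendsto_natlog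
  have e1 : ∀ᶠ x : ℝ in atTop, x ^ a ≤ (x - 1) ^ c := by
    set d := max a 0 with hd
    have hdc : d < c := max_lt hca hc0
    filter_upwards [(tendsto_rpow_atTop (show 0 < c - d by linarith)).eventually_ge_atTop (2 ^ c),
      eventually_ge_atTop 2] with x h1 h2
    have h3 : x ^ a ≤ x ^ d := Real.rpow_le_rpow_of_exponent_le (by linarith) (le_max_left _ _)
    have h4 : (x / 2) ^ c ≤ (x - 1) ^ c := Real.rpow_le_rpow (by linarith) (by linarith) hc0.le
    have h5 : (x / 2) ^ c = x ^ c / 2 ^ c := Real.div_rpow (by linarith) (by norm_num) c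
    have h6 : x ^ c = x ^ d * x ^ (c - d) := by
      rw [← Real.rpow_add (by linarith)]
      congr 1
      ring
    have h7 : (0 : ℝ) < 2 ^ c := by positivity
    have h8 : 0 ≤ x ^ d := Real.rpow_nonneg (by linarith) _
    refine h3.trans (le_trans ?_ h4)
    rw [h5, le_div_iff₀ h7, h6]
    exact mul_le_mul_of_nonneg_left h1 h8
  filter_upwards [ht.eventually (hg c hcs), tendsto_ll.eventually e1,
    tendsto_ll.eventually_ge_atTop 2, eventually_ge_atTop 4,
    tendsto_natlog.eventually_ge_atTop 4] with N h1 h2 h3 h4 h5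
  refine lt_of_le_of_lt ?_ h1
  apply Real.rpow_le_rpow_of_exponent_le (by norm_num)
  refine h2.trans (Real.rpow_le_rpow (by linarith) ?_ hc0.le)
  -- the iterated logarithm loses at most one
  have h6 : Real.logb 2 N ≤ 2 * ((Nat.log 2 N - 1 : ℕ) : ℝ) := by
    have h7 : N < 2 ^ (Nat.log 2 N + 1) := Nat.lt_pow_succ_log_self (by norm_num) N
    have h8 : Real.logb 2 N ≤ ((Nat.log 2 N + 1 : ℕ) : ℝ) := by
      rw [Real.logb_le_iff_le_rpow (by norm_num) (by positivity), Real.rpow_natCast]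
      exact_mod_cast h7.le
    refine h8.trans ?_
    have h9 : Nat.log 2 N + 1 ≤ 2 * (Nat.log 2 N - 1) := by omega
    exact_mod_cast h9
  have h7 : 0 < Real.logb 2 N := Real.logb_pos (by norm_num) (by
    have : 1 < N := by omega
    exact_mod_cast this)
  have h8 : ll N ≤ Real.logb 2 (2 * ((Nat.log 2 N - 1 : ℕ) : ℝ)) :=
    Real.logb_le_logb_of_le (by norm_num) h7 h6
  have h9 : (0 : ℝ) < ((Nat.log 2 N - 1 : ℕ) : ℝ) := by
    have : 0 < Nat.log 2 N - 1 := by omega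
    exact_mod_cast this
  rw [Real.logb_mul (by norm_num) h9.ne', Real.logb_self_eq_one (by norm_num)] at h8
  linarith

theorem change_pow {s : ℝ} (hs : 0 ≤ s) (hs1 : s < 1) (g : ℕ → ℝ) :
    (GP s g → ∀ᵐ O ∂randomOracle, ∀ A, Close g O A → ¬ ∀ δ, s < δ → PowA δ A (Hit A)ᶜ) ∧
    (¬ GP s g → ∀ O : Oracle, ∃ A, Close g O A ∧ ∀ L, IsPSPACE A L → PowD s A L) := by
  constructor
  · intro h
    refine ae_far_gau (S := {A | ∀ δ, s < δ → PowA δ A (Hit A)ᶜ}) fun n₁ => ?_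
    obtain ⟨a, ha, hfa⟩ := TP_gau hs hs1 h n₁
    exact null_pow hs hs1 ha hfa _ fun A hA => hA
  · intro h O
    have h0 := not_GP hs h
    have hnn : ∀ᶠ n : ℕ in atTop, 0 ≤ g n := by
      unfold GP at h
      push Not at h
      filter_upwards [h 0 (by simp)] with n hn
      rw [Real.rpow_zero] at hn
      norm_num at hn
      linarith
    obtain ⟨A, h1, h2⟩ := exists_close_fast hnn O
    exact ⟨A, h1, fast_pow hs hs1 h0 h2⟩

end Pool.Agent.TH678.TG
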