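import Pool.Agent.TH678.TG.Change

/-! The number of changed strings: all classes between the hit language and polynomial space -/

namespace Pool.Agent.TH678.TG

open Pool.Agent.NPC Pool.Agent.H622R2 Pool.Agent.H620R2.Gauge Filter Pool.Agent.TH678.ETH
  Pool.Agent.W900.CH MeasureTheory
open Pool.Agent.H628R3.RO (randomOracle)

theorem change_P (g : ℕ → ℝ) :
    ((∀ ε : ℝ, 0 < ε → ∃ᶠ n : ℕ in atTop, g n ≤ 2 ^ (n : ℝ) ^ ε) →
      ∀ᵐ O ∂randomOracle, ∀ A, Close g O A → ¬ WithAdvice (IsNP A) (Hit A)ᶜ) ∧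
    ((¬ ∀ ε : ℝ, 0 < ε → ∃ᶠ n : ℕ in atTop, g n ≤ 2 ^ (n : ℝ) ^ ε) → ∀ O : Oracle,
      (∃ A, Close g O A ∧ ∀ L, IsPSPACE A L → IsP A L) ∧
      ∃ A, Close g O A ∧ (∀ L, IsPSPACE A L → IsNP A L) ∧ ∃ L, IsPSPACE A L ∧ ¬ IsP A L) := by
  constructor
  · intro hg
    have h := ae_far_P (S := {A | WithAdvice (IsNP A) (Hit A)ᶜ}) (fun f hf => by
      refine nullN hf _ fun A hA => ?_
      rw [← hit_eq]
      exact hA) hg
    exact h
  · intro hg O
    constructor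
    · obtain ⟨A, h1, h2⟩ := exists_close_PSPACE hg O
      exact ⟨A, h1, fun L hL => isP_of_reduces (h2 L hL)⟩
    · obtain ⟨A, h1, h2, L, h3, h4⟩ := exists_close_ZPP hg O
      exact ⟨A, h1, fun L hL => (h2 L (Or.inr hL)).isNP, L, h3.isNP.isPSPACE, h4⟩

theorem not_GP_self {s : ℝ} (hs : 0 < s) :
    ¬ GP s (fun n => 2 ^ (Real.logb 2 n) ^ (1 / s)) := by
  rintro ⟨a, ha, h⟩
  obtain ⟨n, h1, h2⟩ := (h.and_eventually (H529R3.Gap.tendsto_log.eventually_gt_atTop 1)).exists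
  have h3 : (2 : ℝ) ^ (Real.logb 2 n) ^ a < 2 ^ (Real.logb 2 n) ^ (1 / s) := by
    apply Real.rpow_lt_rpow_of_exponent_lt (by norm_num)
    apply Real.rpow_lt_rpow_of_exponent_lt h2
    rwa [lt_div_iff₀ hs]
  linarith

theorem ae_exact {s : ℝ} (hs : 0 < s) (hs1 : s < 1) :
    ∀ᵐ O ∂randomOracle, ∀ A, Close (fun n => 2 ^ (Real.logb 2 n) ^ (1 / s)) O A →
      ∀ δ < s, ¬ PowA δ A (Hit A)ᶜ := by
  have h := ae_far_gau (g := fun n => 2 ^ (Real.logb 2 n) ^ (1 / s))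
    (S := {A | ∃ δ < s, PowA δ A (Hit A)ᶜ}) (fun n₁ => by
    refine (null_iUnion (fun m : ℕ => {A : Oracle | ∀ δ : ℝ, max (s - 1 / ((m : ℝ) + 1)) 0 < δ →
      PowA δ A (Hit A)ᶜ}) fun m => ?_).mono ?_
    · have hm : 0 < 1 / ((m : ℝ) + 1) := by positivity
      have hms : max (s - 1 / ((m : ℝ) + 1)) 0 < s := max_lt (by linarith) hs
      obtain ⟨a, ha, hfa⟩ := TP_gau (s := max (s - 1 / ((m : ℝ) + 1)) 0) (le_max_right _ _)
        (hms.trans hs1) (g := fun n => 2 ^ (Real.logb 2 n) ^ (1 / s)) ⟨1 / s, by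
          rw [one_div, inv_mul_lt_iff₀ hs, mul_one]
          exact hms, Eventually.frequently (Eventually.of_forall fun N => le_rfl)⟩ n₁
      exact null_pow (le_max_right _ _) (hms.trans hs1) ha hfa _ fun A hA => hA
    · rintro A ⟨δ, hδ, hA⟩
      obtain ⟨m, hm⟩ := exists_nat_one_div_lt (show 0 < s - δ by linarith)
      refine Set.mem_iUnion.2 ⟨m, fun δ' hδ' => hA.mono ?_⟩
      have := (le_max_left _ _).trans hδ'.le
      linarith)
  filter_upwards [h] with O hO A hA δ hδ hP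
  exact hO A hA ⟨δ, hδ, hP⟩

end Pool.Agent.TH678.TG
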