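import Pool.Agent.TH678.TG.Defs
import Pool.Agent.TH678.ETH.Down2

/-! Polynomial space is coded into the oracle, at the places which the gauge permits -/

namespace Pool.Agent.TH678.TG

open Pool.Agent.NPC Pool.Agent.H622R2 Pool.Agent.H620R2.Gauge Pool.Agent.H622R2.Exp Finset
  MeasureTheory Filter Pool.Agent.TH678.ETH

/-- at the level `i` the strings of length `t` can be coded -/
def Pf (f : ℕ → ℝ) (t i : ℕ) : Prop :=
  ∀ j, i ≤ j → ∀ N : ℕ, 2 ^ (2 ^ j) ≤ N → ((j : ℝ) + 1) * 2 ^ t ≤ f N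

/-- Everything in polynomial space can be asked at every place which the gauge permits. -/
def Fast (f : ℕ → ℝ) (A : Oracle) : Prop :=
  ∀ L, IsPSPACE A L → ∃ (M : Alg) (e : ℕ) (b : Polynomial ℕ), ∀ (x : List Bool) (i : ℕ),
    b.eval x.length ≤ 2 ^ i → Pf f (e + x.length + 2) i →
      (x ∈ L ↔ AccIn M (2 ^ (i + 1)) A (pairBits (List.replicate (2 ^ (i + 1)) true) x))

/-- the codes that are used -/
def IZ (f : ℕ → ℝ) (b : ℕ → Polynomial ℕ) : Type :=
  {p : ℕ × List Bool × ℕ // (b p.1).eval p.2.1.length ≤ 2 ^ p.2.2 ∧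
    Pf f (p.1 + p.2.1.length + 2) p.2.2}

/-- the code -/
def cz (f : ℕ → ℝ) (b : ℕ → Polynomial ℕ) (p : IZ f b) : List Bool :=
  cd p.1.2.2 (pr p.1.1 p.1.2.1)

theorem cz_inj (f : ℕ → ℝ) (b : ℕ → Polynomial ℕ) : Function.Injective (cz f b) := by
  rintro ⟨⟨e, x, i⟩, h⟩ ⟨⟨e', x', i'⟩, h'⟩ hh
  obtain ⟨h1, h2⟩ := cd_inj hh
  obtain ⟨h3, h4⟩ := CC.rep_inj _ _ _ _ h2
  subst h1 h3 h4
  rfl

open Classical in
theorem countz (f : ℕ → ℝ) (b : ℕ → Polynomial ℕ) (N : ℕ) :
    ((Finset.range N).filter (fun i => str i ∈ Set.range (cz f b))).card = 0 ∨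
      (((Finset.range N).filter (fun i => str i ∈ Set.range (cz f b))).card : ℝ) ≤ f N := by
  set S := (Finset.range N).filter (fun i => str i ∈ Set.range (cz f b)) with hS
  rcases S.eq_empty_or_nonempty with h0 | hne
  · left
    rw [h0]
    rfl
  · right
    have key : ∀ n ∈ S, ∃ (e : ℕ) (x : List Bool) (i : ℕ), n = idx (cd i (pr e x)) ∧
        2 ^ 2 ^ i ≤ N ∧ Pf f (e + x.length + 2) i := by
      intro n hn
      rw [hS, Finset.mem_filter, Finset.mem_range] at hn
      obtain ⟨h1, ⟨⟨e, x, i⟩, h2⟩, h3⟩ := hn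
      have h4 : cd i (pr e x) = str n := h3
      refine ⟨e, x, i, by rw [h4, idx_str], ?_, h2.2⟩
      have h5 := le_idx (cd i (pr e x))
      rw [h4, idx_str] at h5
      have h6 : 2 ^ 2 ^ i ≤ 2 ^ (str n).length := by
        rw [← h4, length_cd]
        exact Nat.pow_le_pow_right (by norm_num) (by omega)
      omega
    choose! ee xx ii k1 k2 k3 using key
    obtain ⟨m, hm, hmax⟩ := Finset.exists_max_image S (fun n => ee n + (xx n).length + 2) hne
    set I := Nat.findGreatest (fun i => 2 ^ 2 ^ i ≤ N) N with hI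
    have hlt : ∀ i, 2 ^ 2 ^ i ≤ N → i ≤ N := by
      intro i hi
      have h2 : i < 2 ^ 2 ^ i := lt_trans Nat.lt_two_pow_self
        (Nat.pow_lt_pow_right (by norm_num) Nat.lt_two_pow_self)
      omega
    have hbd : ∀ i, 2 ^ 2 ^ i ≤ N → i ≤ I := fun i hi => Nat.le_findGreatest (hlt i hi) hi
    have hIN : 2 ^ 2 ^ I ≤ N := Nat.findGreatest_spec (P := fun i => 2 ^ 2 ^ i ≤ N)
      (hlt _ (k2 m hm)) (k2 m hm)
    set t := ee m + (xx m).length + 2 with ht
    have h6 : ((I : ℝ) + 1) * 2 ^ t ≤ f N := k3 m hm I (hbd _ (k2 m hm)) N hIN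
    have h7 : S ⊆ (Finset.range (I + 1) ×ˢ Finset.range (2 ^ t)).image
        (fun q : ℕ × ℕ => idx (cd q.1 (str q.2))) := by
      intro n hn
      have h1 := k1 n hn
      have h2 := k2 n hn
      rw [Finset.mem_image]
      refine ⟨(ii n, idx (pr (ee n) (xx n))), ?_, ?_⟩
      · rw [Finset.mem_product, Finset.mem_range, Finset.mem_range]
        refine ⟨Nat.lt_succ_of_le (hbd _ h2), ?_⟩
        have h8 := hmax n hn
        have h9 := idx_lt (pr (ee n) (xx n))
        rw [length_pr] at h9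
        have h10 : 2 ^ (ee n + 1 + (xx n).length + 1) ≤ 2 ^ t :=
          Nat.pow_le_pow_right (by norm_num) (by omega)
        show idx (pr (ee n) (xx n)) < 2 ^ t
        omega
      · show idx (cd (ii n) (str (idx (pr (ee n) (xx n))))) = n
        rw [str_idx, ← h1]
    have h8 : S.card ≤ (I + 1) * 2 ^ t := by
      refine (Finset.card_le_card h7).trans (Finset.card_image_le.trans ?_)
      rw [Finset.card_product, Finset.card_range, Finset.card_range]
    have h9 : (S.card : ℝ) ≤ ((I : ℝ) + 1) * 2 ^ t := by exact_mod_cast h8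
    linarith

/-- the coded oracles -/
theorem exists_fast (f : ℕ → ℝ) : ∃ (b : ℕ → Polynomial ℕ) (Φ : Oracle → Oracle),
    (∀ B, ∀ y ∉ Set.range (cz f b), Φ B y = B y) ∧ ∀ B, Fast f (Φ B) := by
  obtain ⟨g, hg⟩ := CC.exists_enum
  choose b hb using fun e : ℕ => CC.act_length (g e).1 (g e).2
  obtain ⟨Φ, hΦ1, hΦ2⟩ := exists_fix (cz f b) (cz_inj f b)
    (fun p A => CC.Acc (g p.1.1).1 (CC.cut (2 ^ p.1.2.2) A) p.1.2.1) (by
      rintro ⟨⟨e, x, i⟩, h⟩ A A' hA
      have hcut : CC.cut (2 ^ i) A = CC.cut (2 ^ i) A' := by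
        funext z
        unfold CC.cut
        split_ifs with hz
        · apply hA
          show z.length < (cd i (pr e x)).length
          rw [length_cd]
          omega
        · rfl
      show CC.Acc (g e).1 (CC.cut (2 ^ i) A) x ↔ CC.Acc (g e).1 (CC.cut (2 ^ i) A') x
      rw [hcut])
  refine ⟨b, Φ, fun B y hy => ?_, fun B => ?_⟩
  · apply hΦ1
    intro p h
    exact hy ⟨p, h.symm⟩
  · rintro L ⟨M, p, hM⟩
    obtain ⟨e, he⟩ := hg (M, p)
    have hbe := hb e
    rw [he] at hbe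
    refine ⟨A2.ttAlg (poly_ask e) (Poly.snd Poly.id) 0, e,
      b e + Polynomial.X + Polynomial.C (e + 2), fun x i k3 hkx => ?_⟩
    simp only [Polynomial.eval_add, Polynomial.eval_C, Polynomial.eval_X] at k3
    have hbx : (b e).eval x.length ≤ 2 ^ i := by omega
    have hcode := hΦ2 B ⟨(e, x, i), hbx, hkx⟩
    have hV : AccIn (A2.ttAlg (poly_ask e) (Poly.snd Poly.id) 0) (2 ^ (i + 1)) (Φ B)
        (pairBits (List.replicate (2 ^ (i + 1)) true) x) ↔
        CC.Acc (g e).1 (CC.cut (2 ^ i) (Φ B)) x := by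
      unfold AccIn
      have h1 := A2.tt_run (poly_ask e) (Poly.snd Poly.id) 0 (upTo (2 ^ (i + 1)) (Φ B))
        (pairBits (List.replicate (2 ^ (i + 1)) true) x) (2 ^ (i + 1)) 0 (Nat.zero_le _) (by
          have : 2 ≤ 2 ^ (i + 1) := by
            calc 2 = 2 ^ 1 := rfl
              _ ≤ 2 ^ (i + 1) := Nat.pow_le_pow_right (by norm_num) (by omega)
          simp only [List.length_singleton]
          omega)
      rw [List.take_zero] at h1
      rw [h1]
      have h2 : upTo (2 ^ (i + 1)) (Φ B)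
          (ask e (pairBits (List.replicate (2 ^ (i + 1)) true) x)) =
          Φ B (cd i (pr e x)) := by
        rw [ask_pad]
        unfold upTo
        rw [decide_eq_true, Bool.true_and]
        rw [length_cd, length_pr, pow_succ]
        omega
      simp only [List.map_cons, List.map_nil, h2, Option.some.injEq, List.cons.injEq, and_true]
      exact hcode
    rw [hV, he]
    obtain ⟨hM1, s, z, hs, hz, hL⟩ := hM x
    have hcong : ∀ s, M.Reach (CC.cut (2 ^ i) (Φ B)) x s ↔ M.Reach (Φ B) x s := by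
      refine CC.reach_congr (fun s => s.length ≤ p.eval x.length) hM1 ?_
      intro s q h1 h2
      have h3 := hbe x s h1
      rw [h2, List.length_cons] at h3
      unfold CC.cut
      rw [if_pos (by omega)]
    constructor
    · intro hx
      refine ⟨s, (hcong s).2 hs, ?_⟩
      rw [hz, hL.1 hx]
    · rintro ⟨t, ht, ht2⟩
      have hst := CC.reach_unique hs ((hcong t).1 ht) ⟨_, hz⟩ ⟨_, ht2⟩
      rw [hst, ht2] at hz
      simp only [List.cons.injEq, true_and] at hz
      exact hL.2 hz.symm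

theorem not_null_fast {f : ℕ → ℝ} (hf : ∀ᶠ N : ℕ in atTop, 0 ≤ f N) :
    ¬ Null f {A | Fast f A} := by
  classical
  obtain ⟨b, Φ, hΦ1, hΦ2⟩ := exists_fast f
  obtain ⟨c, hc0, hc⟩ : ∃ c : ℝ, 0 ≤ c ∧ ∀ N, 0 ≤ f N + c := by
    obtain ⟨N₀, hN₀⟩ := Filter.eventually_atTop.1 hf
    exact exists_shift2 (N₀ := N₀) fun N hN => hN₀ N hN
  refine not_null_of f Set.univ (by rw [measure_univ]; exact one_pos) Φ
    (Set.range (cz f b)) hΦ1 c (fun N => ?_) {A | Fast f A} fun B _ => hΦ2 B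
  rcases countz f b N with h | h
  · rw [h]
    simpa using hc N
  · linarith

end Pool.Agent.TH678.TG
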