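import Pool.Agent.TH678.ETH.Rate
import Pool.Agent.TH678.ETH.Up

/-!
# Deterministic and nondeterministic time bounds relative to an oracle

(Continues `Pool.Agent.H620R2.Gauge.Defs` and `Pool.Agent.TH678.ETH.Rate`.)
-/

namespace Pool.Agent.TH678.TG

open Pool.Agent.NPC Pool.Agent.H620R2.Gauge Pool.Agent.TH678.ETH

/-- The algorithm `M` decides `L` relative to `A` in deterministic time `2 ^ u n`: for all
sufficiently long `x`, it accepts `x` within `2 ^ u |x|` rounds, with questions of at most as many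
bits, if and only if `x` is in `L`. Besides `x` it gets `2 ^ u |x|` ones. -/
def DDec (M : Alg) (u : ℕ → ℕ) (A : Oracle) (L : Set (List Bool)) : Prop :=
  ∃ n₀ : ℕ, ∀ x : List Bool, n₀ ≤ x.length →
    (x ∈ L ↔ AccIn M (2 ^ u x.length) A (pairBits (List.replicate (2 ^ u x.length) true) x))

/-- The same in nondeterministic time: with some certificate of at most `2 ^ u |x|` bits. -/
def NDec (M : Alg) (u : ℕ → ℕ) (A : Oracle) (L : Set (List Bool)) : Prop :=
  ∃ n₀ : ℕ, ∀ x : List Bool, n₀ ≤ x.length →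
    (x ∈ L ↔ AccT M (2 ^ u x.length) A (pairBits (List.replicate (2 ^ u x.length) true) x))

/-- The same in nondeterministic time with arbitrary advice: for all large `n` there are an advice
`h` of at most `2 ^ u n` bits and a number `t` of rounds (and bound for the questions and the
certificates), at most `2 ^ u n`, such that the inputs `x` of length `n` that are accepted with the
advice `h` are the members of `L`. -/
def ADec (M : Alg) (u : ℕ → ℕ) (A : Oracle) (L : Set (List Bool)) : Prop :=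
  ∃ n₀ : ℕ, ∀ n, n₀ ≤ n → ∃ (h : List Bool) (t : ℕ), h.length ≤ 2 ^ u n ∧ t ≤ 2 ^ u n ∧
    ∀ x : List Bool, x.length = n → (x ∈ L ↔ AccT M t A (pairBits h x))

/-- `L` is in deterministic time `2 ^ U k n` for some `k`. -/
def InD (U : ℕ → ℕ → ℕ) (A : Oracle) (L : Set (List Bool)) : Prop :=
  ∃ (M : Alg) (k : ℕ), DDec M (U k) A L

/-- `L` is in nondeterministic time `2 ^ U k n` for some `k`. -/
def InN (U : ℕ → ℕ → ℕ) (A : Oracle) (L : Set (List Bool)) : Prop :=
  ∃ (M : Alg) (k : ℕ), NDec M (U k) A L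

/-- `L` is in nonuniform nondeterministic time `2 ^ U k n` for some `k`. -/
def InA (U : ℕ → ℕ → ℕ) (A : Oracle) (L : Set (List Bool)) : Prop :=
  ∃ (M : Alg) (k : ℕ), ADec M (U k) A L

/-- The sequences `U` of exponents: increasing, at least `log n` for some `k`, at most `n / 4`, and
closed under multiplication of the value and of the argument by constants. -/
structure Nice (U : ℕ → ℕ → ℕ) : Prop where
  mono : ∀ n, Monotone fun k => U k n
  log : ∃ k, ∀ᶠ n : ℕ in Filter.atTop, Nat.log 2 n ≤ U k n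
  small : ∀ k, ∀ᶠ n : ℕ in Filter.atTop, 4 * U k n ≤ n
  closed : ∀ k C : ℕ, ∃ k' : ℕ, ∀ᶠ n : ℕ in Filter.atTop, C * U k (C * n) + C ≤ U k' n

/-- `L` is in deterministic time `2 ^ ⌊n ^ δ⌋` for every `δ > s`, with one and the same algorithm. -/
def PowD (s : ℝ) (A : Oracle) (L : Set (List Bool)) : Prop :=
  ∃ M : Alg, ∀ δ : ℝ, s < δ → DDec M (fun n => ⌊(n : ℝ) ^ δ⌋₊) A L

/-- `L` is in nondeterministic time `2 ^ ⌊n ^ δ⌋` for every `δ > s`. -/
def PowN (s : ℝ) (A : Oracle) (L : Set (List Bool)) : Prop :=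
  ∀ δ : ℝ, s < δ → ∃ M : Alg, NDec M (fun n => ⌊(n : ℝ) ^ δ⌋₊) A L

/-- `L` is in nonuniform nondeterministic time `2 ^ ⌊n ^ δ⌋`. -/
def PowA (δ : ℝ) (A : Oracle) (L : Set (List Bool)) : Prop :=
  ∃ M : Alg, ADec M (fun n => ⌊(n : ℝ) ^ δ⌋₊) A L

/-- The exponents `(log n) ^ (k + 1)`; `2 ^ QP k n` are the quasi-polynomial time bounds. -/
def QP (k n : ℕ) : ℕ := (Nat.log 2 n) ^ (k + 1)

/-- The strings `x` that are hit by `A`: there is a string `y` of the same length such that the
oracle contains all the strings `x y 1 ^ i` with `i < |x|`. -/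
def Hit (A : Oracle) : Set (List Bool) :=
  {x | ∃ y : List Bool, y.length = x.length ∧
    ∀ i < x.length, A (x ++ y ++ List.replicate i true) = true}

end Pool.Agent.TH678.TG
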