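import Pool.Agent.TH678.TG.Pow
import Pool.Agent.TH678.ETH.Final2

/-! Quasi-polynomial time, and the exponents -/

namespace Pool.Agent.TH678.TG

open Pool.Agent.NPC Pool.Agent.H622R2 Pool.Agent.H620R2.Gauge Filter Pool.Agent.TH678.ETH

theorem hit_eq (A : Oracle) : Hit A = hitLang A := by
  ext x
  constructor
  · rintro ⟨w, hw, h⟩
    obtain ⟨j, hj, h'⟩ := exists_bitsOf w
    rw [hw] at hj h'
    refine ⟨j, hj, fun i hi => ?_⟩
    unfold wit
    rw [h']
    exact h i hi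
  · rintro ⟨j, hj, h⟩
    exact ⟨bitsOf x.length j, length_bitsOf _ _, h⟩

theorem exists_ign (M : Alg) : ∃ M' : Alg, ∀ (B : Oracle) (w y : List Bool) (n : ℕ)
    (a : List Bool), M'.run B (pairBits w y) n a = M.run B y n a := by
  have hD := poly_of_polyTime M.poly
  have hD' : Poly (fun z : List Bool => M.D (pairBits (unpair (unpair z).1).2 (unpair z).2)) :=
    hD.comp (poly_pairBits (Poly.snd (poly_unpair.comp (Poly.fst poly_unpair)))
      (Poly.snd poly_unpair))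
  let M' : Alg := ⟨_, polyTime_of_poly_list hD', M.p⟩
  refine ⟨M', ?_⟩
  intro B w y n
  induction n with
  | zero => intro a; rfl
  | succ n ih =>
    intro a
    simp only [Alg.run, M', unpair_pairBits]
    rcases M.D (pairBits y a) with _ | ⟨c, r⟩
    · rfl
    · cases c with
      | true => rfl
      | false => exact ih _

theorem NDec.adec {M : Alg} {u : ℕ → ℕ} {A : Oracle} {L : Set (List Bool)} (h : NDec M u A L) :
    ADec M u A L := by
  obtain ⟨n₀, hn₀⟩ := h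
  refine ⟨n₀, fun n hn => ⟨List.replicate (2 ^ u n) true, 2 ^ u n, ?_, le_rfl, ?_⟩⟩
  · rw [List.length_replicate]
  · rintro x rfl
    exact hn₀ x hn

theorem DDec.ndec {M : Alg} {u : ℕ → ℕ} {A : Oracle} {L : Set (List Bool)} (h : DDec M u A L) :
    ∃ M' : Alg, NDec M' u A L := by
  obtain ⟨M', hM'⟩ := exists_ign M
  obtain ⟨n₀, hn₀⟩ := h
  refine ⟨M', n₀, fun x hx => ?_⟩
  rw [hn₀ x hx]
  constructor
  · intro h
    refine ⟨[], by simp, ?_⟩
    rw [hM']
    exact h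
  · rintro ⟨w, _, hw⟩
    rw [hM'] at hw
    exact hw

theorem PowD.powN {s : ℝ} {A : Oracle} {L : Set (List Bool)} (h : PowD s A L) : PowN s A L := by
  obtain ⟨M, hM⟩ := h
  exact fun δ hδ => (hM δ hδ).ndec

theorem PowN.powA {s δ : ℝ} {A : Oracle} {L : Set (List Bool)} (h : PowN s A L) (hδ : s < δ) :
    PowA δ A L := by
  obtain ⟨M, hM⟩ := h δ hδ
  exact ⟨M, hM.adec⟩

theorem InD.inN {U : ℕ → ℕ → ℕ} {A : Oracle} {L : Set (List Bool)} (h : InD U A L) :
    InN U A L := by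
  obtain ⟨M, k, hM⟩ := h
  obtain ⟨M', hM'⟩ := hM.ndec
  exact ⟨M', k, hM'⟩

theorem InN.inA {U : ℕ → ℕ → ℕ} {A : Oracle} {L : Set (List Bool)} (h : InN U A L) :
    InA U A L := by
  obtain ⟨M, k, hM⟩ := h
  exact ⟨M, k, hM.adec⟩

theorem PowA.mono {δ δ' : ℝ} (h : δ ≤ δ') {A : Oracle} {L : Set (List Bool)} (hA : PowA δ A L) :
    PowA δ' A L := by
  obtain ⟨M, n₀, hM⟩ := hA
  refine ⟨M, max n₀ 1, fun n hn => ?_⟩
  obtain ⟨g, t, hg, ht, hx⟩ := hM n (le_trans (le_max_left _ _) hn)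
  have h1 : (1 : ℝ) ≤ n := by
    have : 1 ≤ n := le_trans (le_max_right _ _) hn
    exact_mod_cast this
  have h2 : 2 ^ ⌊(n : ℝ) ^ δ⌋₊ ≤ 2 ^ ⌊(n : ℝ) ^ δ'⌋₊ :=
    Nat.pow_le_pow_right (by norm_num) (Nat.floor_mono (Real.rpow_le_rpow_of_exponent_le h1 h))
  exact ⟨g, t, hg.trans h2, ht.trans h2, hx⟩

/-! ### Quasi-polynomial time -/

theorem log_mul_le (C n : ℕ) : Nat.log 2 (C * n) ≤ C + Nat.log 2 n := by
  rcases Nat.eq_zero_or_pos (C * n) with h | h
  · rw [h]
    simp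
  · have hn : 0 < n := Nat.pos_of_mul_pos_left h
    have h1 : C * n < 2 ^ (C + Nat.log 2 n + 1) := by
      have h2 : C < 2 ^ C := Nat.lt_two_pow_self
      have h3 : n < 2 ^ (Nat.log 2 n + 1) := Nat.lt_pow_succ_log_self (by norm_num) n
      calc C * n ≤ 2 ^ C * n := Nat.mul_le_mul_right _ h2.le
        _ < 2 ^ C * 2 ^ (Nat.log 2 n + 1) := Nat.mul_lt_mul_of_pos_left h3 (by positivity)
        _ = _ := by rw [← pow_add]; congr 1
    have := Nat.log_lt_of_lt_pow (by omega) h1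
    omega

theorem tendsto_natlog : Tendsto (fun n : ℕ => Nat.log 2 n) atTop atTop := by
  refine tendsto_atTop.2 fun b => ?_
  filter_upwards [eventually_ge_atTop (2 ^ b)] with n hn
  have := Nat.log_mono_right (b := 2) hn
  rwa [Nat.log_pow (by norm_num)] at this

theorem nice_QP : Nice QP := by
  refine ⟨fun n a b hab => ?_, ⟨0, ?_⟩, fun k => ?_, fun k C => ⟨k + 1, ?_⟩⟩
  · show Nat.log 2 n ^ (a + 1) ≤ Nat.log 2 n ^ (b + 1)
    rcases Nat.eq_zero_or_pos (Nat.log 2 n) with h | h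
    · rw [h]
      simp
    · exact Nat.pow_le_pow_right h (by omega)
  · filter_upwards with n
    unfold QP
    rw [zero_add, pow_one]
  · have h := Exp.E0.poly_le (Polynomial.X ^ (k + 1)) 1
    filter_upwards [tendsto_natlog.eventually (Exp.E0.poly_le
      (Polynomial.C 4 * Polynomial.X ^ (k + 1)) 1), eventually_ge_atTop 1] with n h1 h2
    simp only [Polynomial.eval_mul, Polynomial.eval_C, Polynomial.eval_pow,
      Polynomial.eval_X] at h1
    unfold QP
    have h3 : 2 ^ Nat.log 2 n ≤ n := Nat.pow_log_le_self 2 (by omega)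
    omega
  · filter_upwards [tendsto_natlog.eventually_ge_atTop (C * 2 ^ (k + 1) + C + 1)] with n hn
    unfold QP
    have h1 := log_mul_le C n
    have h2 : Nat.log 2 (C * n) ≤ 2 * Nat.log 2 n := by omega
    have h3 : Nat.log 2 (C * n) ^ (k + 1) ≤ 2 ^ (k + 1) * Nat.log 2 n ^ (k + 1) := by
      rw [← mul_pow]
      exact Nat.pow_le_pow_left h2 _
    have h4 : 1 ≤ Nat.log 2 n ^ (k + 1) := Nat.one_le_pow _ _ (by omega)
    calc C * Nat.log 2 (C * n) ^ (k + 1) + C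
        ≤ C * (2 ^ (k + 1) * Nat.log 2 n ^ (k + 1)) + C * Nat.log 2 n ^ (k + 1) := by
          apply Nat.add_le_add
          · exact Nat.mul_le_mul_left _ h3
          · exact Nat.le_mul_of_pos_right _ h4
      _ = (C * 2 ^ (k + 1) + C) * Nat.log 2 n ^ (k + 1) := by ring
      _ ≤ Nat.log 2 n * Nat.log 2 n ^ (k + 1) := Nat.mul_le_mul_right _ (by omega)
      _ = Nat.log 2 n ^ (k + 1 + 1) := by rw [pow_succ (Nat.log 2 n) (k + 1)]; ring

theorem TU_QP (f : ℕ → ℝ) : TU QP f ↔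
    ∀ ε : ℝ, 0 < ε → ∃ᶠ N : ℕ in atTop, f N ≤ 2 ^ (2 : ℝ) ^ (ll N) ^ ε := by
  constructor
  · intro h ε hε
    obtain ⟨k, hk⟩ := exists_nat_one_div_lt hε
    have hk' : 1 < ε * ((k : ℝ) + 1) := by
      rwa [div_lt_iff₀ (by positivity)] at hk
    have e1 : ∀ᶠ x : ℝ in atTop, x ^ (1 / ((k : ℝ) + 1)) + 1 ≤ x ^ ε := by
      filter_upwards [(tendsto_rpow_atTop (show 0 < ε - 1 / ((k : ℝ) + 1) by
        linarith)).eventually_ge_atTop 2, eventually_ge_atTop 1] with x h1 h2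
      have h3 : x ^ ε = x ^ (1 / ((k : ℝ) + 1)) * x ^ (ε - 1 / ((k : ℝ) + 1)) := by
        rw [← Real.rpow_add (by linarith)]
        congr 1
        ring
      have h4 : 1 ≤ x ^ (1 / ((k : ℝ) + 1)) := Real.one_le_rpow h2 (by positivity)
      rw [h3]
      nlinarith
    refine ((h k).and_eventually ((tendsto_ll.eventually e1).and
      (tendsto_ll.eventually_ge_atTop 1))).mono ?_
    rintro N ⟨⟨n, hn, hfn⟩, h1, h2⟩
    refine hfn.trans ?_
    rw [← Real.rpow_natCast]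
    apply Real.rpow_le_rpow_of_exponent_le (by norm_num)
    have h3 := le_ll hn
    unfold QP at h3
    push_cast at h3
    have h4 : (Nat.log 2 n : ℝ) ≤ ll N ^ (1 / ((k : ℝ) + 1)) := by
      have h5 := Real.rpow_le_rpow (by positivity) h3 (show 0 ≤ (((k + 1 : ℕ) : ℝ)⁻¹) by positivity)
      rw [Real.pow_rpow_inv_natCast (by positivity) (by omega)] at h5
      rw [one_div]
      push_cast at h5
      exact h5
    have h5 : (n : ℝ) ≤ 2 ^ ((Nat.log 2 n : ℝ) + 1) := by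
      have h6 : n < 2 ^ (Nat.log 2 n + 1) := Nat.lt_pow_succ_log_self (by norm_num) n
      have h7 : ((2 : ℝ) ^ ((Nat.log 2 n : ℝ) + 1)) = ((2 ^ (Nat.log 2 n + 1) : ℕ) : ℝ) := by
        push_cast
        rw [← Real.rpow_natCast]
        push_cast
        rfl
      rw [h7]
      exact_mod_cast h6.le
    refine h5.trans (Real.rpow_le_rpow_of_exponent_le (by norm_num) ?_)
    linarith
  · intro h k
    have hk0 : (0 : ℝ) ≤ k := Nat.cast_nonneg k
    set ε : ℝ := 1 / ((k : ℝ) + 2) with hε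
    have hε0 : 0 < ε := by positivity
    have hεk : ε * ((k + 1 : ℕ) : ℝ) < 1 := by
      push_cast
      rw [hε, div_mul_eq_mul_div, div_lt_one (by positivity)]
      linarith
    have e1 : ∀ᶠ x : ℝ in atTop, (2 * x ^ ε) ^ (k + 1) ≤ x := by
      filter_upwards [(tendsto_rpow_atTop (show 0 < 1 - ε * ((k + 1 : ℕ) : ℝ) by
        linarith)).eventually_ge_atTop (2 ^ (k + 1)), eventually_ge_atTop 1] with x h1 h2
      have h3 : x = x ^ (ε * ((k + 1 : ℕ) : ℝ)) * x ^ (1 - ε * ((k + 1 : ℕ) : ℝ)) := by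
        rw [← Real.rpow_add (by linarith)]
        simp
      have h4 : (x ^ ε) ^ (k + 1) = x ^ (ε * ((k + 1 : ℕ) : ℝ)) := by
        rw [← Real.rpow_natCast, ← Real.rpow_mul (by linarith)]
      rw [mul_pow, h4]
      have h5 : 0 ≤ x ^ (ε * ((k + 1 : ℕ) : ℝ)) := Real.rpow_nonneg (by linarith) _
      calc 2 ^ (k + 1) * x ^ (ε * ((k + 1 : ℕ) : ℝ))
          = x ^ (ε * ((k + 1 : ℕ) : ℝ)) * 2 ^ (k + 1) := by ring
        _ ≤ x ^ (ε * ((k + 1 : ℕ) : ℝ)) * x ^ (1 - ε * ((k + 1 : ℕ) : ℝ)) :=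
            mul_le_mul_of_nonneg_left h1 h5
        _ = x := h3.symm
    refine ((h ε hε0).and_eventually (((tendsto_ll.eventually e1).and
      (tendsto_ll.eventually_ge_atTop 1)).and
      (H529R3.Gap.tendsto_log.eventually_ge_atTop 1))).mono ?_
    rintro N ⟨hfN, ⟨h1, h2⟩, h3⟩
    set x := ll N with hx
    have h1e : 1 ≤ x ^ ε := Real.one_le_rpow h2 hε0.le
    have hm1 : x ^ ε ≤ ⌈x ^ ε⌉₊ := Nat.le_ceil _
    have hm2 : (⌈x ^ ε⌉₊ : ℝ) < x ^ ε + 1 := Nat.ceil_lt_add_one (by linarith)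
    refine ⟨2 ^ ⌈x ^ ε⌉₊, pow_le_of_ll h3 ?_, hfN.trans ?_⟩
    · unfold QP
      rw [Nat.log_pow (by norm_num)]
      have h4 : (((⌈x ^ ε⌉₊ ^ (k + 1) : ℕ)) : ℝ) ≤ x := by
        push_cast
        refine le_trans (pow_le_pow_left₀ (by positivity) ?_ _) h1
        linarith
      calc ((2 ^ ⌈x ^ ε⌉₊ ^ (k + 1) : ℕ) : ℝ) = 2 ^ (((⌈x ^ ε⌉₊ ^ (k + 1) : ℕ)) : ℝ) := by
            rw [Real.rpow_natCast]; push_cast; rfl
        _ ≤ 2 ^ x := Real.rpow_le_rpow_of_exponent_le (by norm_num) h4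
    · rw [← Real.rpow_natCast]
      apply Real.rpow_le_rpow_of_exponent_le (by norm_num)
      push_cast
      rw [← Real.rpow_natCast]
      exact Real.rpow_le_rpow_of_exponent_le (by norm_num) hm1

/-- `PSPACE` in quasi-polynomial time: the gauges -/
theorem key_QP (f : ℕ → ℝ) (O : Set Oracle)
    (h1 : ∀ A : Oracle, (∀ L, IsPSPACE A L → InD QP A L) →
      (∃ L, IsNP A L ∧ ¬ WithAdvice (IsNP A) Lᶜ) → A ∈ O)
    (h2 : ∀ A ∈ O, InA QP A (Hit A)ᶜ) :
    Null f O ↔ ∀ ε : ℝ, 0 < ε → ∃ᶠ N : ℕ in atTop, f N ≤ 2 ^ (2 : ℝ) ^ (ll N) ^ ε := by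
  rw [← TU_QP]
  constructor
  · intro hn
    by_contra hcon
    set g : ℕ → ℝ := fun N => min (f N) (2 ^ (2 : ℝ) ^ (ll N) ^ (1 / 2 : ℝ)) with hg
    have hgO : Null g O := H529R3.Lev.null_anti (fun N => min_le_left _ _) hn
    have hgP : Null g {A : Oracle | ∀ L, IsNP A L → WithAdvice (IsNP A) Lᶜ} := by
      refine nullN (f := g) (fun ε hε => ?_) _ fun A hA => hA _ (hitLang_np A)
      have e1 : ∀ᶠ x : ℝ in atTop, x ^ (1 / 2 : ℝ) ≤ ε * x := by
        filter_upwards [(tendsto_rpow_atTop (show (0 : ℝ) < 1 / 2 by norm_num)).eventually_ge_atTop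
          (1 / ε), eventually_ge_atTop 1] with x h1 h2
        have h3 : x = x ^ (1 / 2 : ℝ) * x ^ (1 / 2 : ℝ) := by
          rw [← Real.rpow_add (by linarith)]
          norm_num
        have h4 : 0 ≤ x ^ (1 / 2 : ℝ) := Real.rpow_nonneg (by linarith) _
        rw [div_le_iff₀ hε] at h1
        calc x ^ (1 / 2 : ℝ) ≤ x ^ (1 / 2 : ℝ) * (x ^ (1 / 2 : ℝ) * ε) := by nlinarith
          _ = ε * (x ^ (1 / 2 : ℝ) * x ^ (1 / 2 : ℝ)) := by ring
          _ = ε * x := by rw [← h3]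
      refine Eventually.frequently ?_
      filter_upwards [tendsto_ll.eventually e1,
        H529R3.Gap.tendsto_log.eventually_ge_atTop 1] with N h3 h4
      refine (min_le_right _ _).trans ?_
      apply Real.rpow_le_rpow_of_exponent_le (by norm_num)
      calc (2 : ℝ) ^ (ll N) ^ (1 / 2 : ℝ) ≤ 2 ^ (ε * ll N) :=
            Real.rpow_le_rpow_of_exponent_le (by norm_num) h3
        _ = (2 ^ ll N) ^ ε := by rw [mul_comm, Real.rpow_mul (by norm_num)]
        _ = (Real.logb 2 N) ^ ε := by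
            unfold ll
            rw [Real.rpow_logb (by norm_num) (by norm_num) (by linarith)]
    have hg' : ¬ TU QP g := by
      intro h
      rw [TU_QP] at h hcon
      apply hcon
      intro ε hε
      have h5 := h (min ε (1 / 4)) (lt_min hε (by norm_num))
      refine (h5.and_eventually (tendsto_ll.eventually_gt_atTop 1)).mono ?_
      rintro N ⟨h6, h7⟩
      have h8 : (2 : ℝ) ^ (2 : ℝ) ^ (ll N) ^ (min ε (1 / 4)) ≤ 2 ^ (2 : ℝ) ^ (ll N) ^ ε := by
        apply Real.rpow_le_rpow_of_exponent_le (by norm_num)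
        apply Real.rpow_le_rpow_of_exponent_le (by norm_num)
        exact Real.rpow_le_rpow_of_exponent_le h7.le (min_le_left _ _)
      have h9 : (2 : ℝ) ^ (2 : ℝ) ^ (ll N) ^ (min ε (1 / 4)) <
          2 ^ (2 : ℝ) ^ (ll N) ^ (1 / 2 : ℝ) := by
        apply Real.rpow_lt_rpow_of_exponent_lt (by norm_num)
        apply Real.rpow_lt_rpow_of_exponent_lt (by norm_num)
        apply Real.rpow_lt_rpow_of_exponent_lt h7
        exact lt_of_le_of_lt (min_le_right _ _) (by norm_num)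
      have h10 : g N < 2 ^ (2 : ℝ) ^ (ll N) ^ (1 / 2 : ℝ) := lt_of_le_of_lt h6 h9
      have h11 : g N = f N := by
        rw [hg]
        apply min_eq_left
        by_contra hc
        push Not at hc
        have : g N = 2 ^ (2 : ℝ) ^ (ll N) ^ (1 / 2 : ℝ) := min_eq_right hc.le
        linarith
      rw [← h11]
      exact h6.trans h8
    refine not_null_union_law nice_QP hg' {A : Oracle | ∀ L, IsPSPACE A L → InD QP A L}
      (fun A hA => hA) ((null_union hgO hgP).mono ?_)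
    intro A hA
    by_cases h3 : ∃ L, IsNP A L ∧ ¬ WithAdvice (IsNP A) Lᶜ
    · exact Or.inl (h1 A hA h3)
    · right
      push Not at h3
      exact h3
  · intro h
    exact null_union_law nice_QP h O fun A hA => by rw [← hit_eq]; exact h2 A hA

end Pool.Agent.TH678.TG
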