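import Pool.Agent.TH678.TG.Final

/-! The exponents -/

namespace Pool.Agent.TH678.TG

open Pool.Agent.NPC Pool.Agent.H622R2 Pool.Agent.H620R2.Gauge Filter Pool.Agent.TH678.ETH

theorem null_pow {f : ℕ → ℝ} {s a : ℝ} (hs : 0 ≤ s) (hs1 : s < 1) (ha : a * s < 1)
    (hf : ∃ᶠ N : ℕ in atTop, f N ≤ 2 ^ (ll N) ^ a) (O : Set Oracle)
    (hO : ∀ A ∈ O, ∀ δ, s < δ → PowA δ A (Hit A)ᶜ) : Null f O := by
  obtain ⟨δ, h1, h2, h3⟩ := cond_null hs hs1 ha hf
  refine (null_of_V (v := fun n => ⌊(n : ℝ) ^ δ⌋₊) (pw_small h2) h3).mono fun A hA => ?_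
  have := hO A hA δ h1
  rw [hit_eq] at this
  exact this

theorem fast_pow {f : ℕ → ℝ} {s : ℝ} (hs : 0 ≤ s) (hs1 : s < 1)
    (hf : ∀ a : ℝ, a * s < 1 → ∀ᶠ N : ℕ in atTop, 2 ^ (ll N) ^ a < f N) {A : Oracle}
    (hA : Fast f A) (L : Set (List Bool)) (hL : IsPSPACE A L) : PowD s A L := by
  obtain ⟨M, e, b, hM⟩ := hA L hL
  obtain ⟨C, hC⟩ := poly_log b
  refine ⟨M, fun δ hδ => ?_⟩
  obtain ⟨δ', h1, h2⟩ := exists_between (lt_min hδ hs1)
  have hδ' : δ' < δ := lt_of_lt_of_le h2 (min_le_left _ _)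
  have hδ1 : δ' < 1 := lt_of_lt_of_le h2 (min_le_right _ _)
  have hδ0 : 0 < δ' := lt_of_le_of_lt hs h1
  have h3 : ∀ᶠ n : ℕ in atTop, Nat.log 2 n ≤ ⌊(n : ℝ) ^ δ'⌋₊ := by
    filter_upwards [pw_log hδ0 1] with n hn
    omega
  obtain ⟨n₀, hn₀⟩ := Filter.eventually_atTop.1 (((pf_of (v := fun n => ⌊(n : ℝ) ^ δ'⌋₊) h3
    (pw_small hδ1) (cond_fast hs hf h1) e).and (pw_two hδ0 hδ' hδ1)).and
    (pw_log (hδ0.trans hδ') (C + 1)))
  refine ⟨n₀, fun x hx => ?_⟩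
  obtain ⟨⟨k4, k5⟩, k6⟩ := hn₀ x.length hx
  obtain ⟨i, hi⟩ : ∃ i, ⌊(x.length : ℝ) ^ δ⌋₊ = i + 1 := ⟨⌊(x.length : ℝ) ^ δ⌋₊ - 1, by omega⟩
  simp only [hi] at k5 k6 ⊢
  refine hM x i ((hC _).trans (Nat.pow_le_pow_right (by norm_num) ?_)) (k4 i (by omega))
  have : (C + 1) * Nat.log 2 x.length + (C + 1) = C * Nat.log 2 x.length + C +
    Nat.log 2 x.length + 1 := by ring
  omega

theorem cap_P {c ε : ℝ} (hε : 0 < ε) : ∀ᶠ N : ℕ in atTop,
    (2 : ℝ) ^ (ll N) ^ c ≤ 2 ^ (Real.logb 2 N) ^ ε := by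
  have hlog2 : 0 < Real.log 2 := Real.log_pos (by norm_num)
  have h := (isLittleO_rpow_exp_pos_mul_atTop c (mul_pos hε hlog2)).def (show (0 : ℝ) < 1 by norm_num)
  filter_upwards [tendsto_ll.eventually h, tendsto_ll.eventually_ge_atTop 1,
    H529R3.Gap.tendsto_log.eventually_ge_atTop 1] with N h1 h2 h3
  rw [Real.norm_eq_abs, Real.norm_eq_abs, abs_of_nonneg (Real.rpow_nonneg (by linarith) _),
    abs_of_nonneg (Real.exp_nonneg _), one_mul] at h1
  apply Real.rpow_le_rpow_of_exponent_le (by norm_num)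
  refine h1.trans (le_of_eq ?_)
  have h4 : Real.logb 2 N = 2 ^ ll N := by
    unfold ll
    rw [Real.rpow_logb (by norm_num) (by norm_num) (by linarith)]
  rw [h4, ← Real.rpow_mul (by norm_num), Real.rpow_def_of_pos (by norm_num : (0 : ℝ) < 2)]
  congr 1
  ring

theorem nullP_of_cap {g : ℕ → ℝ} {c : ℝ} (hg : ∀ N, g N ≤ 2 ^ (ll N) ^ c) :
    Null g {A : Oracle | ∀ L, IsNP A L → WithAdvice (IsNP A) Lᶜ} := by
  refine nullN (f := g) (fun ε hε => ?_) _ fun A hA => hA _ (hitLang_np A)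
  exact ((cap_P (c := c) hε).mono fun N h => (hg N).trans h).frequently

/-- the condition on the gauge -/
def TP (s : ℝ) (f : ℕ → ℝ) : Prop :=
  ∃ a : ℝ, a * s < 1 ∧ ∃ᶠ N : ℕ in atTop, f N ≤ 2 ^ (ll N) ^ a

theorem cap_zero {f : ℕ → ℝ} (hf : ∀ a : ℝ, a * 0 < 1 → ∀ᶠ N : ℕ in atTop, 2 ^ (ll N) ^ a < f N) :
    ∃ g : ℕ → ℝ, (∀ N, g N ≤ f N) ∧ (∀ a : ℝ, a * 0 < 1 → ∀ᶠ N : ℕ in atTop,
      2 ^ (ll N) ^ a < g N) ∧ Null g {A : Oracle | ∀ L, IsNP A L → WithAdvice (IsNP A) Lᶜ} := by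
  refine ⟨fun N => min (f N) (2 ^ (2 : ℝ) ^ (ll N) ^ (1 / 2 : ℝ)), fun N => min_le_left _ _,
    fun a ha => ?_, ?_⟩
  · have e1 : ∀ᶠ x : ℝ in atTop, x ^ a < 2 ^ x ^ (1 / 2 : ℝ) := by
      have hlog2 : 0 < Real.log 2 := Real.log_pos (by norm_num)
      have h := (isLittleO_rpow_exp_pos_mul_atTop (2 * a) hlog2).def
        (show (0 : ℝ) < 1 / 2 by norm_num)
      have ht := (tendsto_rpow_atTop (show (0 : ℝ) < 1 / 2 by norm_num))
      filter_upwards [ht.eventually h, eventually_ge_atTop 1] with x h1 h2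
      have h3 : 0 ≤ x ^ (1 / 2 : ℝ) := Real.rpow_nonneg (by linarith) _
      rw [Real.norm_eq_abs, Real.norm_eq_abs, abs_of_nonneg (Real.rpow_nonneg h3 _),
        abs_of_nonneg (Real.exp_nonneg _), ← Real.rpow_mul (by linarith)] at h1
      rw [Real.rpow_def_of_pos (by norm_num : (0 : ℝ) < 2)]
      have h4 : (1 / 2 : ℝ) * (2 * a) = a := by ring
      rw [h4] at h1
      have h5 := Real.exp_pos (Real.log 2 * x ^ (1 / 2 : ℝ))
      linarith
    filter_upwards [hf a ha, tendsto_ll.eventually e1] with N h1 h2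
    exact lt_min h1 (Real.rpow_lt_rpow_of_exponent_lt (by norm_num) h2)
  · refine nullN (fun ε hε => ?_) _ fun A hA => hA _ (hitLang_np A)
    have e1 : ∀ᶠ x : ℝ in atTop, x ^ (1 / 2 : ℝ) ≤ ε * x := by
      filter_upwards [(tendsto_rpow_atTop (show (0 : ℝ) < 1 / 2 by norm_num)).eventually_ge_atTop
        (1 / ε), eventually_ge_atTop 1] with x h1 h2
      have h3 : x = x ^ (1 / 2 : ℝ) * x ^ (1 / 2 : ℝ) := by
        rw [← Real.rpow_add (by linarith)]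
        norm_num
      have h4 : 0 ≤ x ^ (1 / 2 : ℝ) := Real.rpow_nonneg (by linarith) _
      rw [div_le_iff₀ hε] at h1
      calc x ^ (1 / 2 : ℝ) ≤ x ^ (1 / 2 : ℝ) * (x ^ (1 / 2 : ℝ) * ε) := by nlinarith
        _ = ε * (x ^ (1 / 2 : ℝ) * x ^ (1 / 2 : ℝ)) := by ring
        _ = ε * x := by rw [← h3]
    refine Eventually.frequently ?_
    filter_upwards [tendsto_ll.eventually e1,
      H529R3.Gap.tendsto_log.eventually_ge_atTop 1] with N h3 h4
    refine (min_le_right _ _).trans ?_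
    apply Real.rpow_le_rpow_of_exponent_le (by norm_num)
    calc (2 : ℝ) ^ (ll N) ^ (1 / 2 : ℝ) ≤ 2 ^ (ε * ll N) :=
          Real.rpow_le_rpow_of_exponent_le (by norm_num) h3
      _ = (2 ^ ll N) ^ ε := by rw [mul_comm, Real.rpow_mul (by norm_num)]
      _ = (Real.logb 2 N) ^ ε := by
          unfold ll
          rw [Real.rpow_logb (by norm_num) (by norm_num) (by linarith)]

theorem cap_pos {f : ℕ → ℝ} {s : ℝ} (hs : 0 < s) (hs1 : s < 1)
    (hf : ∀ a : ℝ, a * s < 1 → ∀ᶠ N : ℕ in atTop, 2 ^ (ll N) ^ a < f N) :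
    ∃ g : ℕ → ℝ, (∀ N, g N ≤ f N) ∧ (∀ a : ℝ, a * s < 1 → ∀ᶠ N : ℕ in atTop,
      2 ^ (ll N) ^ a < g N) ∧ Null g {A : Oracle | ∀ L, IsNP A L → WithAdvice (IsNP A) Lᶜ} ∧
      Null g {A : Oracle | ∃ δ < s, PowA δ A (Hit A)ᶜ} := by
  refine ⟨fun N => min (f N) (2 ^ (ll N) ^ (1 / s)), fun N => min_le_left _ _,
    fun a ha => ?_, nullP_of_cap (c := 1 / s) fun N => min_le_right _ _, ?_⟩
  · filter_upwards [hf a ha, tendsto_ll.eventually_gt_atTop 1] with N h1 h2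
    refine lt_min h1 (Real.rpow_lt_rpow_of_exponent_lt (by norm_num)
      (Real.rpow_lt_rpow_of_exponent_lt h2 ?_))
    rwa [lt_div_iff₀ hs]
  · refine (null_iUnion (fun m : ℕ => {A : Oracle | ∀ δ : ℝ, max (s - 1 / ((m : ℝ) + 1)) 0 < δ →
      PowA δ A (Hit A)ᶜ}) fun m => ?_).mono ?_
    · have hm : 0 < 1 / ((m : ℝ) + 1) := by positivity
      have hms : max (s - 1 / ((m : ℝ) + 1)) 0 < s := max_lt (by linarith) hs
      refine null_pow (s := max (s - 1 / ((m : ℝ) + 1)) 0) (a := 1 / s) (le_max_right _ _)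
        (hms.trans hs1) ?_ (Eventually.frequently (Eventually.of_forall fun N =>
          min_le_right _ _)) _ fun A hA => hA
      rw [one_div, inv_mul_lt_iff₀ hs, mul_one]
      exact hms
    · rintro A ⟨δ, hδ, hA⟩
      obtain ⟨m, hm⟩ := exists_nat_one_div_lt (show 0 < s - δ by linarith)
      refine Set.mem_iUnion.2 ⟨m, fun δ' hδ' => hA.mono ?_⟩
      have := (le_max_left _ _).trans hδ'.le
      linarith

theorem key_pow (f : ℕ → ℝ) {s : ℝ} (hs : 0 ≤ s) (hs1 : s < 1) (O : Set Oracle)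
    (h1 : ∀ A : Oracle, (∀ L, IsPSPACE A L → PowD s A L) →
      (0 < s → ∀ δ < s, ¬ PowA δ A (Hit A)ᶜ) →
      (∃ L, IsNP A L ∧ ¬ WithAdvice (IsNP A) Lᶜ) → A ∈ O)
    (h2 : ∀ A ∈ O, ∀ δ, s < δ → PowA δ A (Hit A)ᶜ) : Null f O ↔ TP s f := by
  constructor
  · intro hn
    by_contra hcon
    unfold TP at hcon
    push Not at hcon
    rcases hs.eq_or_lt with rfl | hs0
    · obtain ⟨g, hg1, hg2, hg3⟩ := cap_zero hcon
      have hgO : Null g O := H529R3.Lev.null_anti hg1 hn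
      refine not_null_fast ?_ ((null_union hgO hg3).mono ?_)
      · filter_upwards [hg2 0 (by simp)] with N hN
        rw [Real.rpow_zero] at hN
        norm_num at hN
        linarith
      · intro A hA
        by_cases h3 : ∃ L, IsNP A L ∧ ¬ WithAdvice (IsNP A) Lᶜ
        · exact Or.inl (h1 A (fast_pow le_rfl hs1 hg2 hA) (fun h => absurd h (lt_irrefl 0)) h3)
        · right
          push Not at h3
          exact h3
    · obtain ⟨g, hg1, hg2, hg3, hg4⟩ := cap_pos hs0 hs1 hcon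
      have hgO : Null g O := H529R3.Lev.null_anti hg1 hn
      refine not_null_fast ?_ ((null_union (null_union hgO hg3) hg4).mono ?_)
      · filter_upwards [hg2 0 (by simp)] with N hN
        rw [Real.rpow_zero] at hN
        norm_num at hN
        linarith
      · intro A hA
        by_cases h3 : ∃ L, IsNP A L ∧ ¬ WithAdvice (IsNP A) Lᶜ
        · by_cases h4 : ∃ δ < s, PowA δ A (Hit A)ᶜ
          · exact Or.inr h4
          · push Not at h4
            exact Or.inl (Or.inl (h1 A (fast_pow hs hs1 hg2 hA) (fun _ => h4) h3))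
        · left
          right
          push Not at h3
          exact h3
  · rintro ⟨a, ha, hfa⟩
    exact null_pow hs hs1 ha hfa O h2

end Pool.Agent.TH678.TG
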