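import Pool.Agent.TH678.TG.Final2

/-! The laws for all classes between the hit language and polynomial space -/

namespace Pool.Agent.TH678.TG

open Pool.Agent.NPC Pool.Agent.H622R2 Pool.Agent.H620R2.Gauge Filter Pool.Agent.TH678.ETH

/-- `C` is a class of languages relative to an oracle, inside polynomial space, which contains the
set of the strings that are not hit (as deterministic linear space does). -/
def Between (C : Oracle → Set (List Bool) → Prop) : Prop :=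
  (∀ A L, C A L → IsPSPACE A L) ∧ ∀ A, C A (Hit A)ᶜ

theorem between_pspace : Between IsPSPACE := by
  refine ⟨fun _ _ h => h, fun A => ?_⟩
  rw [hit_eq]
  exact (hitLang_np A).isPSPACE.compl

variable {C : Oracle → Set (List Bool) → Prop}

theorem law_QP (hC : Between C) (f : ℕ → ℝ) :
    ∀ X ∈ ([{A | ∀ L, C A L → InD QP A L}, {A | ∀ L, C A L → InN QP A L},
      {A | (∀ L, C A L → InD QP A L) ∧ ∃ L, IsNP A L ∧ ¬ WithAdvice (IsNP A) Lᶜ}] :
      List (Set Oracle)),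
      (Null f X ↔ ∀ ε : ℝ, 0 < ε → ∃ᶠ N : ℕ in atTop, f N ≤ 2 ^ (2 : ℝ) ^ (ll N) ^ ε) := by
  intro X hX
  simp only [List.mem_cons, List.not_mem_nil, or_false] at hX
  rcases hX with rfl | rfl | rfl
  · exact key_QP f _ (fun A hA _ L hL => hA L (hC.1 A L hL)) fun A hA => (hA _ (hC.2 A)).inN.inA
  · exact key_QP f _ (fun A hA _ L hL => (hA L (hC.1 A L hL)).inN)
      fun A hA => (hA _ (hC.2 A)).inA
  · exact key_QP f _ (fun A hA h => ⟨fun L hL => hA L (hC.1 A L hL), h⟩)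
      fun A hA => (hA.1 _ (hC.2 A)).inN.inA

theorem law_pow (hC : Between C) (f : ℕ → ℝ) {s : ℝ} (hs : 0 ≤ s) (hs1 : s < 1) :
    ∀ X ∈ ([{A | ∀ L, C A L → PowD s A L}, {A | ∀ L, C A L → PowN s A L},
      {A | (∀ L, C A L → PowD s A L) ∧ (0 < s → ∀ δ < s, ¬ PowA δ A (Hit A)ᶜ) ∧
        ∃ L, IsNP A L ∧ ¬ WithAdvice (IsNP A) Lᶜ}] : List (Set Oracle)),
      (Null f X ↔ ∃ a : ℝ, a * s < 1 ∧ ∃ᶠ N : ℕ in atTop, f N ≤ 2 ^ (ll N) ^ a) := by
  intro X hX
  simp only [List.mem_cons, List.not_mem_nil, or_false] at hX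
  rcases hX with rfl | rfl | rfl
  · exact key_pow f hs hs1 _ (fun A hA _ _ L hL => hA L (hC.1 A L hL))
      fun A hA δ hδ => (hA _ (hC.2 A)).powN.powA hδ
  · exact key_pow f hs hs1 _ (fun A hA _ _ L hL => (hA L (hC.1 A L hL)).powN)
      fun A hA δ hδ => (hA _ (hC.2 A)).powA hδ
  · exact key_pow f hs hs1 _ (fun A hA h h' => ⟨fun L hL => hA L (hC.1 A L hL), h, h'⟩)
      fun A hA δ hδ => (hA.1 _ (hC.2 A)).powN.powA hδ

theorem law_one (hC : Between C) (f : ℕ → ℝ) :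
    ∀ X ∈ ([{A | ∃ s : ℝ, 0 ≤ s ∧ s < 1 ∧ ∀ L, C A L → PowD s A L},
      {A | ∃ s : ℝ, 0 ≤ s ∧ s < 1 ∧ ∀ L, C A L → PowN s A L}] : List (Set Oracle)),
      (Null f X ↔ ∀ b : ℝ, 1 < b → ∃ᶠ N : ℕ in atTop, f N ≤ 2 ^ (ll N) ^ b) := by
  have down : ∀ X : Set Oracle, (∀ s : ℝ, 0 ≤ s → s < 1 → {A | ∀ L, C A L → PowD s A L} ⊆ X) →
      Null f X → ∀ b : ℝ, 1 < b → ∃ᶠ N : ℕ in atTop, f N ≤ 2 ^ (ll N) ^ b := by
    intro X hX hn b hb
    have hb0 : 0 < b := by linarith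
    have hb1 : 1 / b < 1 := by rw [div_lt_one hb0]; exact hb
    obtain ⟨a, ha, hfa⟩ := (law_pow hC f (s := 1 / b) (by positivity) hb1 _
      (List.mem_cons_self ..)).1 (hn.mono (hX _ (by positivity) hb1))
    have hab : a < b := by
      rw [mul_one_div, div_lt_one hb0] at ha
      exact ha
    refine (hfa.and_eventually (tendsto_ll.eventually_ge_atTop 1)).mono fun N h => h.1.trans ?_
    exact Real.rpow_le_rpow_of_exponent_le (by norm_num)
      (Real.rpow_le_rpow_of_exponent_le h.2 hab.le)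
  have up : (∀ b : ℝ, 1 < b → ∃ᶠ N : ℕ in atTop, f N ≤ 2 ^ (ll N) ^ b) →
      Null f {A | ∃ s : ℝ, 0 ≤ s ∧ s < 1 ∧ ∀ L, C A L → PowN s A L} := by
    intro hf
    refine (null_iUnion (f := f) (fun m : ℕ => {A : Oracle | ∀ δ : ℝ, 1 - 1 / ((m : ℝ) + 1) < δ →
      PowA δ A (Hit A)ᶜ}) fun m => ?_).mono ?_
    · have hm : (0 : ℝ) < (m : ℝ) + 1 := by positivity
      have hm1 : 1 / ((m : ℝ) + 1) ≤ 1 := by
        rw [div_le_one hm]
        have : (0 : ℝ) ≤ m := Nat.cast_nonneg m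
        linarith
      have hm0 : 0 < 1 / ((m : ℝ) + 1) := by positivity
      exact null_pow (s := 1 - 1 / ((m : ℝ) + 1)) (a := 1 + 1 / ((m : ℝ) + 1)) (by linarith)
        (by linarith) (by nlinarith) (hf _ (by linarith)) _ fun A hA δ hδ => hA δ hδ
    · rintro A ⟨s, hs, hs1, hA⟩
      obtain ⟨m, hm⟩ := exists_nat_one_div_lt (show 0 < 1 - s by linarith)
      refine Set.mem_iUnion.2 ⟨m, fun δ hδ => (hA _ (hC.2 A)).powA ?_⟩
      linarith
  intro X hX
  simp only [List.mem_cons, List.not_mem_nil, or_false] at hX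
  rcases hX with rfl | rfl
  · exact ⟨down _ fun s hs hs1 A hA => ⟨s, hs, hs1, hA⟩, fun h => (up h).mono fun A hA => by
      obtain ⟨s, h1, h2, h3⟩ := hA
      exact ⟨s, h1, h2, fun L hL => (h3 L hL).powN⟩⟩
  · exact ⟨down _ fun s hs hs1 A hA => ⟨s, hs, hs1, fun L hL => (hA L hL).powN⟩, up⟩

end Pool.Agent.TH678.TG
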