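import Pool.Agent.TH678.TG.Defs
import Pool.Agent.TH678.ETH.Up2

/-! The oracles for which the complement of the hit language is easy -/

namespace Pool.Agent.TH678.TG

open Pool.Agent.NPC Pool.Agent.H620R2.Gauge Finset H568R2 Pool.Agent.H676 Filter
  Pool.Agent.TH678.ETH

/-- the event -/
def EvX (M : Alg) (T n N σ R : ℕ) (a : Fin N → Bool) : Prop :=
  ∃ p ∈ params T, ∀ k : Fin (16 * σ) × Fin R,
    (vT M p.2 N (pairBits p.1 (inp n σ R k)) a = true ↔ ¬ HitF (WS n N σ R k) a)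

open Classical in
theorem evX_bound (M : Alg) {T n N σ R : ℕ} (hn : 1 ≤ n) (hR1 : 1 ≤ R) (hR : 2 * T ≤ R)
    (hp : 2 * T ≤ 2 ^ n) (hσ : 16 * σ * R ≤ 2 ^ n) (hN : 2 ^ (3 * n + 1) ≤ N + 1) :
    Ex unif (fun a : Fin N → Bool => if EvX M T n N σ R a then (1 : ℝ) else 0) ≤
      2 ^ (3 * T) * (2 * (2 / 3 : ℝ) ^ σ) := by
  have h := Ex_union (params T) (fun (p : List Bool × ℕ) (a : Fin N → Bool) =>
    ∀ k : Fin (16 * σ) × Fin R,
    (vT M p.2 N (pairBits p.1 (inp n σ R k)) a = true ↔ ¬ HitF (WS n N σ R k) a))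
    (2 * (2 / 3 : ℝ) ^ σ) (by
    intro p hp'
    have hp2 : p.2 ≤ T := by
      have := (Finset.mem_product.1 hp').2
      rw [Finset.mem_range] at this
      omega
    have h9 := np_comb (p := p.2) (J := Fin (2 ^ n)) hn (by simp)
      (by omega) (by omega) hR1 (WS n N σ R) (by
        intro k j
        rw [WS, witF_card (by rw [length_inp]; exact hN), length_inp]) (by
        intro k j k' j' hne
        apply witF_disj
        · rw [length_inp, length_inp]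
        · rw [length_inp]; exact j.2
        · rw [length_inp]; exact j'.2
        · intro he
          apply hne
          rw [Prod.mk.injEq] at he
          rw [inp_inj hσ he.1, Fin.ext he.2])
      (fun k => vT M p.2 N (pairBits p.1 (inp n σ R k)))
      (fun k => cert_vT M p.2 N _)
    refine le_trans (le_of_eq ?_) h9
    congr 1
    funext a
    congr) (EvX M T n N σ R) (fun a ha => ha)
  refine h.trans ?_
  apply mul_le_mul_of_nonneg_right _ (by positivity)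
  exact_mod_cast card_params T

/-- the oracles for which the algorithm is good -/
def EasyV (v : ℕ → ℕ) (M : Alg) (n₀ : ℕ) : Set Oracle :=
  {A | ∀ n, n₀ ≤ n → ∃ (h : List Bool) (t : ℕ), h.length ≤ 2 ^ v n ∧ t ≤ 2 ^ v n ∧
    ∀ x : List Bool, x.length = n → (x ∈ (hitLang A)ᶜ ↔ AccT M t A (pairBits h x))}

theorem evS_of_easyV {v : ℕ → ℕ} {M : Alg} {n₀ : ℕ} {A : Oracle} (hA : A ∈ EasyV v M n₀)
    {n N σ R : ℕ} (hn : n₀ ≤ n) (hN : 2 ^ (2 ^ v n + 1) ≤ N) (hN' : 2 ^ (3 * n + 1) ≤ N + 1) :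
    EvX M (2 ^ v n) n N σ R (pre N A) := by
  classical
  obtain ⟨h, t, hh, ht, hx⟩ := hA n hn
  refine ⟨(h, t), ?_, fun k => ?_⟩
  · unfold params
    rw [Finset.mem_product, Finset.mem_biUnion, Finset.mem_range]
    exact ⟨⟨h.length, Finset.mem_range.2 (by omega), mem_strsOf h⟩, by
      show t < 2 ^ v n + 1
      omega⟩
  have h1 : upTo t (orc N (pre N A)) = upTo t A := by
    funext q
    unfold upTo
    by_cases hq : q.length ≤ t
    · rw [orc_pre]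
      have h2 := idx_lt q
      have h4 : 2 ^ (q.length + 1) ≤ 2 ^ (2 ^ v n + 1) :=
        Nat.pow_le_pow_right (by norm_num) (by omega)
      omega
    · simp [hq]
  have h2 : vT M t N (pairBits h (inp n σ R k)) (pre N A) = true ↔
      AccT M t A (pairBits h (inp n σ R k)) := by
    unfold vT
    rw [decide_eq_true_iff]
    unfold AccT
    rw [h1]
  show vT M t N (pairBits h (inp n σ R k)) (pre N A) = true ↔ _
  rw [h2, hit_iff hN', ← hx _ (length_inp n σ R k), Set.mem_compl_iff]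

theorem smallV {v q : ℕ} (hv : v + 2 ≤ q) {F : ℝ} (hF : F ≤ 2 ^ q) :
    2 ^ (3 * 2 ^ v) * (2 * (2 / 3 : ℝ) ^ (2 ^ (q + 3))) * 2 ^ F ≤ 2 ^ (-((2 : ℝ) ^ q)) := by
  have h1 : (2 / 3 : ℝ) ^ (2 ^ (q + 3)) ≤ 2 ^ (-((2 : ℝ) ^ (q + 2))) := by
    have e1 : (2 / 3 : ℝ) ^ (2 ^ (q + 3)) = ((2 / 3) ^ 2) ^ (2 ^ (q + 2)) := by
      rw [← pow_mul]; congr 1; ring
    rw [e1, Real.rpow_neg (by norm_num)]
    have e2 : (2 : ℝ) ^ ((2 : ℝ) ^ (q + 2)) = 2 ^ (2 ^ (q + 2)) := by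
      rw [← Real.rpow_natCast 2 (2 ^ (q + 2))]; push_cast; rfl
    rw [e2, ← inv_pow]
    exact pow_le_pow_left₀ (by norm_num) (by norm_num) _
  have h2 : (2 : ℝ) ^ (3 * 2 ^ v) = 2 ^ ((3 : ℝ) * 2 ^ v) := by
    rw [← Real.rpow_natCast 2 (3 * 2 ^ v)]; push_cast; rfl
  have h3 : (2 : ℝ) ^ (3 * 2 ^ v) * (2 * (2 / 3 : ℝ) ^ (2 ^ (q + 3))) * 2 ^ F ≤
      2 ^ ((3 : ℝ) * 2 ^ v + (1 + -((2 : ℝ) ^ (q + 2))) + F) := by
    rw [Real.rpow_add (by norm_num), Real.rpow_add (by norm_num), Real.rpow_add (by norm_num),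
      Real.rpow_one, ← h2]
    gcongr
  refine h3.trans (Real.rpow_le_rpow_of_exponent_le (by norm_num) ?_)
  have h4 : (4 : ℝ) * 2 ^ v ≤ 2 ^ q := by
    calc (4 : ℝ) * 2 ^ v = 2 ^ (v + 2) := by rw [pow_add]; ring
      _ ≤ 2 ^ q := pow_le_pow_right₀ (by norm_num) hv
  have h40 : (0 : ℝ) < 2 ^ v := by positivity
  have h5 : (2 : ℝ) ^ (q + 2) = 4 * 2 ^ q := by rw [pow_add]; ring
  have h6 : (1 : ℝ) ≤ 2 ^ q := one_le_pow₀ (by norm_num)
  linarith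

theorem null_easyV {f : ℕ → ℝ} {v : ℕ → ℕ} (h4 : ∀ᶠ n : ℕ in atTop, 4 * v n ≤ n)
    (hf : ∀ n₁ : ℕ, ∃ N n : ℕ, n₁ ≤ n ∧ 2 ^ (2 ^ v n + 1) ≤ N ∧ 2 ^ (3 * n + 1) ≤ N ∧
      f N ≤ 2 ^ (n / 2))
    (M : Alg) (n₀ : ℕ) : Null f (EasyV v M n₀) := by
  intro δ hδ
  have e2 : ∀ᶠ n : ℕ in atTop, (2 : ℝ) ^ (-(n : ℝ)) ≤ δ := by
    have h := tendsto_pow_atTop_nhds_zero_of_lt_one (r := (1 / 2 : ℝ)) (by norm_num)
      (by norm_num)
    filter_upwards [h.eventually (gt_mem_nhds hδ)] with u hu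
    rw [Real.rpow_neg (by norm_num), Real.rpow_natCast, ← inv_pow]
    have : ((2 : ℝ)⁻¹) ^ u = (1 / 2) ^ u := by norm_num
    rw [this]
    exact hu.le
  obtain ⟨u₀, hu₀⟩ := Filter.eventually_atTop.1 e2
  obtain ⟨n₂, hn₂⟩ := Filter.eventually_atTop.1 h4
  obtain ⟨N, n, hn, hN, hN3, hfN⟩ := hf (max (max n₀ n₂) (max (2 * u₀) 64))
  have hn0 : n₀ ≤ n := le_trans (le_trans (le_max_left _ _) (le_max_left _ _)) hn
  have hn2 : n₂ ≤ n := le_trans (le_trans (le_max_right _ _) (le_max_left _ _)) hn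
  have hn3 : 2 * u₀ ≤ n := le_trans (le_trans (le_max_left _ _) (le_max_right _ _)) hn
  have hn4 : 64 ≤ n := le_trans (le_trans (le_max_right _ _) (le_max_right _ _)) hn
  have k1 := hn₂ n hn2
  obtain ⟨q, hq⟩ : ∃ q, n = v n + 5 + (q + 3) := ⟨n - v n - 8, by omega⟩
  have hqn : n / 2 ≤ q := by omega
  have hN' : 2 ^ (3 * n + 1) ≤ N + 1 := le_trans hN3 (Nat.le_succ _)
  refine cover_of_event (EvX M (2 ^ v n) n N (2 ^ (q + 3)) (2 ^ (v n + 1)))
    (EasyV v M n₀) (fun A hA => evS_of_easyV hA hn0 hN hN') f δ ?_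
  have hb := evX_bound M (T := 2 ^ v n) (n := n) (N := N) (σ := 2 ^ (q + 3))
    (R := 2 ^ (v n + 1)) (by omega) Nat.one_le_two_pow (by rw [pow_succ]; omega)
    (by
      calc 2 * 2 ^ v n = 2 ^ (v n + 1) := by ring
        _ ≤ 2 ^ n := Nat.pow_le_pow_right (by norm_num) (by omega))
    (by
      have : 16 * 2 ^ (q + 3) * 2 ^ (v n + 1) = 2 ^ (4 + (q + 3) + (v n + 1)) := by
        rw [pow_add (2 : ℕ) (4 + _), pow_add (2 : ℕ) 4]; norm_num
      rw [this]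
      apply Nat.pow_le_pow_right (by norm_num)
      omega) hN'
  refine (mul_le_mul_of_nonneg_right hb (by positivity)).trans ((smallV (v := v n) (q := q)
    (by omega) (hfN.trans (pow_le_pow_right₀ (by norm_num) hqn))).trans ?_)
  refine le_trans ?_ (hu₀ (n / 2) (by omega))
  apply Real.rpow_le_rpow_of_exponent_le (by norm_num)
  have h7 : ((n / 2 : ℕ) : ℝ) ≤ 2 ^ q := by
    have h8 : n / 2 ≤ 2 ^ q := hqn.trans Nat.lt_two_pow_self.le
    exact_mod_cast h8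
  linarith

/-- a sufficient condition for the gauge -/
theorem null_of_V {f : ℕ → ℝ} {v : ℕ → ℕ} (h4 : ∀ᶠ n : ℕ in atTop, 4 * v n ≤ n)
    (hf : ∀ n₁ : ℕ, ∃ N n : ℕ, n₁ ≤ n ∧ 2 ^ (2 ^ v n + 1) ≤ N ∧ 2 ^ (3 * n + 1) ≤ N ∧
      f N ≤ 2 ^ (n / 2)) :
    Null f {A : Oracle | ∃ M : Alg, ADec M v A (hitLang A)ᶜ} := by
  have hcount : Countable Alg := inferInstance
  refine (null_iUnion (f := f) (fun p : Alg × ℕ => EasyV v p.1 p.2) fun p =>
    null_easyV h4 hf p.1 p.2).mono fun A hA => ?_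
  obtain ⟨M, n₀, hM⟩ := hA
  exact Set.mem_iUnion.2 ⟨(M, n₀), hM⟩

end Pool.Agent.TH678.TG
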