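import Pool.Agent.TH678.TG.Core
import Pool.Agent.TH678.TG.Hit
import Pool.Agent.TH678.ETH.Final

/-! The law for unions of time classes -/

namespace Pool.Agent.TH678.TG

open Pool.Agent.NPC Pool.Agent.H622R2 Pool.Agent.H620R2.Gauge Pool.Agent.H622R2.Exp Finset
  MeasureTheory Filter Pool.Agent.TH678.ETH

theorem pf_of {f : ℕ → ℝ} {v : ℕ → ℕ} (hlog : ∀ᶠ n : ℕ in atTop, Nat.log 2 n ≤ v n)
    (h4 : ∀ᶠ n : ℕ in atTop, 4 * v n ≤ n)
    (hf : ∀ᶠ N : ℕ in atTop, ∀ n, 2 ^ 2 ^ v n ≤ N → (2 : ℝ) ^ n < f N) (e : ℕ) :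
    ∀ᶠ n : ℕ in atTop, ∀ i, v (2 * n) ≤ i → Pf f (e + n + 2) i := by
  obtain ⟨n₂, hn₂⟩ := Filter.eventually_atTop.1 (hlog.and h4)
  obtain ⟨N₀, hN₀⟩ := Filter.eventually_atTop.1 hf
  filter_upwards [eventually_ge_atTop (n₂ + N₀ + 2 * (e + 2) + 1)] with n hn i hi j hj N hN
  have h1 : Nat.log 2 (2 * n) ≤ j := ((hn₂ (2 * n) (by omega)).1.trans hi).trans hj
  have h2 : 2 * n < 2 ^ (j + 1) := Nat.lt_pow_of_log_lt (by norm_num) (by omega)
  set n' := Nat.findGreatest (fun m => v m ≤ j) (2 ^ (j + 1) + n₂) with hn'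
  have h3 : 2 * n ≤ n' := Nat.le_findGreatest (by omega) (hi.trans hj)
  have h5 : v n' ≤ j := Nat.findGreatest_spec (P := fun m => v m ≤ j) (m := 2 * n) (by omega)
    (hi.trans hj)
  have h6 : j < v (n' + 1) := by
    by_contra hcon
    push Not at hcon
    have h7 := (hn₂ (n' + 1) (by omega)).1
    have h8 : n' + 1 < 2 ^ (j + 1) := Nat.lt_pow_of_log_lt (by norm_num) (by omega)
    have h9 := Nat.le_findGreatest (P := fun m => v m ≤ j) (m := n' + 1)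
      (n := 2 ^ (j + 1) + n₂) (by omega) hcon
    omega
  have h7 := (hn₂ (n' + 1) (by omega)).2
  have h8 : 2 ^ 2 ^ v n' ≤ N := le_trans (Nat.pow_le_pow_right (by norm_num)
    (Nat.pow_le_pow_right (by norm_num) h5)) hN
  have h9 : N₀ ≤ N := by
    have h10 : n < 2 ^ n := Nat.lt_two_pow_self
    have h11 : 2 ^ n ≤ 2 ^ 2 ^ j := Nat.pow_le_pow_right (by norm_num) (by
      have : 2 ^ (j + 1) = 2 * 2 ^ j := by ring
      omega)
    omega
  have h10 := hN₀ N h9 n' h8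
  refine le_trans ?_ h10.le
  have h11 : j + 1 ≤ 2 ^ j := Nat.lt_two_pow_self
  have h12 : ((j : ℝ) + 1) ≤ 2 ^ j := by exact_mod_cast h11
  calc ((j : ℝ) + 1) * 2 ^ (e + n + 2) ≤ 2 ^ j * 2 ^ (e + n + 2) := by gcongr
    _ = 2 ^ (j + (e + n + 2)) := by rw [← pow_add]
    _ ≤ 2 ^ n' := pow_le_pow_right₀ (by norm_num) (by omega)

theorem poly_log (b : Polynomial ℕ) : ∃ C : ℕ, ∀ n : ℕ, b.eval n ≤ 2 ^ (C * Nat.log 2 n + C) := by
  refine ⟨b.eval 1 + b.natDegree, fun n => ?_⟩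
  rcases Nat.eq_zero_or_pos n with rfl | hn
  · have h1 := eval_mono b (Nat.zero_le 1)
    have h2 : b.eval 1 < 2 ^ b.eval 1 := Nat.lt_two_pow_self
    have h3 : 2 ^ b.eval 1 ≤ 2 ^ ((b.eval 1 + b.natDegree) * Nat.log 2 0 +
      (b.eval 1 + b.natDegree)) := Nat.pow_le_pow_right (by norm_num) (by simp)
    omega
  · have h1 := H529R3.Lev.poly_le b n hn
    have h2 : b.eval 1 ≤ 2 ^ b.eval 1 := Nat.lt_two_pow_self.le
    have h3 : n ≤ 2 ^ (Nat.log 2 n + 1) := (Nat.lt_pow_succ_log_self (by norm_num) n).le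
    calc b.eval n ≤ b.eval 1 * n ^ b.natDegree := h1
      _ ≤ 2 ^ b.eval 1 * (2 ^ (Nat.log 2 n + 1)) ^ b.natDegree :=
          Nat.mul_le_mul h2 (Nat.pow_le_pow_left h3 _)
      _ = 2 ^ (b.eval 1 + (Nat.log 2 n + 1) * b.natDegree) := by rw [← pow_mul, ← pow_add]
      _ ≤ _ := Nat.pow_le_pow_right (by norm_num) (by nlinarith)

/-- the condition on the gauge, for unions -/
def TU (U : ℕ → ℕ → ℕ) (f : ℕ → ℝ) : Prop :=
  ∀ k, ∃ᶠ N : ℕ in atTop, ∃ n : ℕ, 2 ^ 2 ^ U k n ≤ N ∧ f N ≤ 2 ^ n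

theorem Nice.poly {U : ℕ → ℕ → ℕ} (hU : Nice U) (C : ℕ) :
    ∃ k, ∀ᶠ n : ℕ in atTop, C * Nat.log 2 n + C ≤ U k n := by
  obtain ⟨k, hk⟩ := hU.log
  obtain ⟨k', hk'⟩ := hU.closed k (C + 1)
  have ht : Tendsto (fun n : ℕ => (C + 1) * n) atTop atTop :=
    tendsto_id.const_mul_atTop' (by omega)
  refine ⟨k', ?_⟩
  filter_upwards [ht.eventually hk, hk'] with n h1 h2
  have h3 : Nat.log 2 n ≤ Nat.log 2 ((C + 1) * n) := Nat.log_mono_right (by nlinarith)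
  nlinarith

theorem null_union_law {U : ℕ → ℕ → ℕ} (hU : Nice U) {f : ℕ → ℝ} (hf : TU U f)
    (O : Set Oracle) (hO : ∀ A ∈ O, InA U A (hitLang A)ᶜ) : Null f O := by
  refine (null_iUnion (f := f) (fun k : ℕ => {A : Oracle | ∃ M : Alg,
    ADec M (U k) A (hitLang A)ᶜ}) fun k => ?_).mono fun A hA => ?_
  · refine null_of_V (hU.small k) fun n₁ => ?_
    obtain ⟨k', hk'⟩ := hU.closed k 2
    obtain ⟨k'', hk''⟩ := hU.poly 8
    set K := max k' k'' with hK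
    obtain ⟨m₀, hm₀⟩ := Filter.eventually_atTop.1 (hk'.and hk'')
    set m₁ := max (max n₁ m₀) 1 with hm₁
    obtain ⟨N, hN, m, hm, hfm⟩ := (Filter.frequently_atTop.1 (hf K)) (2 ^ 2 ^ U K m₁)
    obtain ⟨m', hm', hmN, hfm'⟩ : ∃ m', m₁ ≤ m' ∧ 2 ^ 2 ^ U K m' ≤ N ∧ f N ≤ 2 ^ m' := by
      rcases le_total m₁ m with h | h
      · exact ⟨m, h, hm, hfm⟩
      · exact ⟨m₁, le_rfl, hN, hfm.trans (pow_le_pow_right₀ (by norm_num) h)⟩
    obtain ⟨h1, h2⟩ := hm₀ m' (by omega)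
    have h3 : U k' m' ≤ U K m' := hU.mono m' (le_max_left _ _)
    have h4 : U k'' m' ≤ U K m' := hU.mono m' (le_max_right _ _)
    refine ⟨N, 2 * m', by omega, le_trans (Nat.pow_le_pow_right (by norm_num) ?_) hmN,
      le_trans (Nat.pow_le_pow_right (by norm_num) ?_) hmN, ?_⟩
    · have h5 : 2 ^ (U k (2 * m') + 1) ≤ 2 ^ U K m' :=
        Nat.pow_le_pow_right (by norm_num) (by omega)
      have h6 : 1 ≤ 2 ^ U k (2 * m') := Nat.one_le_two_pow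
      rw [pow_succ] at h5
      omega
    · have h5 : m' < 2 ^ (Nat.log 2 m' + 1) := Nat.lt_pow_succ_log_self (by norm_num) m'
      have h6 : 2 ^ (Nat.log 2 m' + 1 + 4) ≤ 2 ^ U K m' :=
        Nat.pow_le_pow_right (by norm_num) (by omega)
      rw [pow_add] at h6
      omega
    · rwa [Nat.mul_div_cancel_left m' (by norm_num)]
  · obtain ⟨M, k, hM⟩ := hO A hA
    exact Set.mem_iUnion.2 ⟨k, M, hM⟩

theorem fast_inD {U : ℕ → ℕ → ℕ} (hU : Nice U) {f : ℕ → ℝ} (hf : ¬ TU U f) {A : Oracle}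
    (hA : Fast f A) (L : Set (List Bool)) (hL : IsPSPACE A L) : InD U A L := by
  unfold TU at hf
  push Not at hf
  obtain ⟨k₀, hk₀⟩ := hf
  obtain ⟨M, e, b, hM⟩ := hA L hL
  obtain ⟨C, hC⟩ := poly_log b
  obtain ⟨kl, hkl⟩ := hU.log
  obtain ⟨k₂, hk₂⟩ := hU.poly (C + 1)
  set k₁ := max k₀ kl with hk₁
  obtain ⟨k₃, hk₃⟩ := hU.closed k₁ 2
  set K := max k₂ k₃ with hK
  have h1 : ∀ᶠ n : ℕ in atTop, Nat.log 2 n ≤ U k₁ n := by
    filter_upwards [hkl] with n hn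
    exact hn.trans (hU.mono n (le_max_right _ _))
  have h2 : ∀ᶠ N : ℕ in atTop, ∀ n, 2 ^ 2 ^ U k₁ n ≤ N → (2 : ℝ) ^ n < f N := by
    filter_upwards [hk₀] with N hN n hn
    refine hN n (le_trans ?_ hn)
    exact Nat.pow_le_pow_right (by norm_num) (Nat.pow_le_pow_right (by norm_num)
      (hU.mono n (le_max_left _ _)))
  obtain ⟨n₀, hn₀⟩ := Filter.eventually_atTop.1 (((pf_of h1 (hU.small k₁) h2 e).and hk₂).and hk₃)
  refine ⟨M, K, n₀, fun x hx => ?_⟩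
  obtain ⟨⟨k4, k5⟩, k6⟩ := hn₀ x.length hx
  have h3 : U k₂ x.length ≤ U K x.length := hU.mono _ (le_max_left _ _)
  have h4 : U k₃ x.length ≤ U K x.length := hU.mono _ (le_max_right _ _)
  obtain ⟨i, hi⟩ : ∃ i, U K x.length = i + 1 := ⟨U K x.length - 1, by omega⟩
  rw [hi]
  refine hM x i ((hC _).trans (Nat.pow_le_pow_right (by norm_num) ?_)) (k4 i (by omega))
  have : (C + 1) * Nat.log 2 x.length + (C + 1) = C * Nat.log 2 x.length + C +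
    Nat.log 2 x.length + 1 := by ring
  omega

theorem not_TU_nonneg {U : ℕ → ℕ → ℕ} {f : ℕ → ℝ} (hf : ¬ TU U f) :
    ∀ᶠ N : ℕ in atTop, 0 ≤ f N := by
  unfold TU at hf
  push Not at hf
  obtain ⟨k₀, hk₀⟩ := hf
  filter_upwards [hk₀, eventually_ge_atTop (2 ^ 2 ^ U k₀ 0)] with N hN hN'
  have := hN 0 hN'
  rw [pow_zero] at this
  linarith

theorem not_null_union_law {U : ℕ → ℕ → ℕ} (hU : Nice U) {f : ℕ → ℝ} (hf : ¬ TU U f)
    (O : Set Oracle) (hO : ∀ A : Oracle, (∀ L, IsPSPACE A L → InD U A L) → A ∈ O) :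
    ¬ Null f O := fun h =>
  not_null_fast (not_TU_nonneg hf) (h.mono fun A hA => hO A (fast_inD hU hf hA))

theorem union_law {U : ℕ → ℕ → ℕ} (hU : Nice U) (f : ℕ → ℝ) (O : Set Oracle)
    (h1 : ∀ A : Oracle, (∀ L, IsPSPACE A L → InD U A L) → A ∈ O)
    (h2 : ∀ A ∈ O, InA U A (hitLang A)ᶜ) : Null f O ↔ TU U f := by
  constructor
  · intro h
    by_contra hcon
    exact not_null_union_law hU hcon O h1 h
  · exact fun h => null_union_law hU h O h2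

end Pool.Agent.TH678.TG
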