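import Pool.Agent.TH678.TG.Law

/-! The time bounds `2 ^ (n ^ δ)` -/

namespace Pool.Agent.TH678.TG

open Pool.Agent.NPC Pool.Agent.H622R2 Pool.Agent.H620R2.Gauge Pool.Agent.H622R2.Exp Finset
  MeasureTheory Filter Pool.Agent.TH678.ETH

/-- the iterated logarithm -/
noncomputable def ll (N : ℕ) : ℝ := Real.logb 2 (Real.logb 2 N)

theorem tendsto_ll : Tendsto ll atTop atTop := H529R3.Gap.tendsto_loglog

theorem le_ll {m N : ℕ} (h : 2 ^ 2 ^ m ≤ N) : (m : ℝ) ≤ ll N := by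
  have hN : 0 < N := lt_of_lt_of_le (by positivity) h
  have h1 : (2 : ℝ) ^ m ≤ Real.logb 2 N := by
    rw [Real.le_logb_iff_rpow_le (by norm_num) (by exact_mod_cast hN)]
    have h2 : (2 : ℝ) ^ ((2 : ℝ) ^ m) = ((2 ^ 2 ^ m : ℕ) : ℝ) := by
      rw [Nat.cast_pow, ← Real.rpow_natCast ((2 : ℕ) : ℝ) (2 ^ m)]; push_cast; rfl
    rw [h2]
    exact_mod_cast h
  have h3 : (0 : ℝ) < 2 ^ m := by positivity
  unfold ll
  rw [Real.le_logb_iff_rpow_le (by norm_num) (by linarith), Real.rpow_natCast]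
  exact h1

/-- an exponent below the iterated logarithm -/
theorem pow_le_of_ll {m N : ℕ} (h1 : 1 ≤ Real.logb 2 N) (h : (m : ℝ) ≤ 2 ^ ll N) :
    2 ^ m ≤ N := by
  have hN : 0 < N := by
    rcases Nat.eq_zero_or_pos N with rfl | h
    · norm_num at h1
    · exact h
  unfold ll at h
  rw [Real.rpow_logb (by norm_num) (by norm_num) (by linarith)] at h
  rw [Real.le_logb_iff_rpow_le (by norm_num) (by exact_mod_cast hN), Real.rpow_natCast] at h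
  exact_mod_cast h

theorem pw_small {δ : ℝ} (h1 : δ < 1) : ∀ᶠ n : ℕ in atTop, 4 * ⌊(n : ℝ) ^ δ⌋₊ ≤ n := by
  have ht : Tendsto (fun j : ℕ => (j : ℝ)) atTop atTop := tendsto_natCast_atTop_atTop
  have h2 := ht.eventually ((tendsto_rpow_atTop (show 0 < 1 - δ by linarith)).eventually_ge_atTop 4)
  filter_upwards [h2, ht.eventually_gt_atTop 0] with n h3 h4
  have h5 : (n : ℝ) = (n : ℝ) ^ δ * (n : ℝ) ^ (1 - δ) := by
    rw [← Real.rpow_add h4]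
    simp
  have h6 : (0 : ℝ) ≤ (n : ℝ) ^ δ := by positivity
  have h7 : (⌊(n : ℝ) ^ δ⌋₊ : ℝ) ≤ (n : ℝ) ^ δ := Nat.floor_le h6
  have h8 : (4 : ℝ) * ⌊(n : ℝ) ^ δ⌋₊ ≤ n := by
    have : (n : ℝ) ^ δ * 4 ≤ (n : ℝ) ^ δ * (n : ℝ) ^ (1 - δ) := mul_le_mul_of_nonneg_left h3 h6
    linarith
  exact_mod_cast h8

theorem pw_log {δ : ℝ} (h0 : 0 < δ) (C : ℕ) :
    ∀ᶠ n : ℕ in atTop, C * Nat.log 2 n + C ≤ ⌊(n : ℝ) ^ δ⌋₊ := by
  have ht : Tendsto (fun j : ℕ => (j : ℝ)) atTop atTop := tendsto_natCast_atTop_atTop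
  have hlog2 : 0 < Real.log 2 := Real.log_pos (by norm_num)
  have h := isLittleO_log_rpow_atTop (r := δ) h0
  have h' := h.def (show 0 < Real.log 2 / (2 * (C + 1)) by positivity)
  have h2 := (tendsto_rpow_atTop h0).eventually_ge_atTop (2 * (C : ℝ))
  filter_upwards [ht.eventually h', ht.eventually h2, ht.eventually_ge_atTop 1,
    eventually_ge_atTop 1] with n h3 h4 h5 h6
  apply Nat.le_floor
  have hl : 0 ≤ Real.log n := Real.log_nonneg h5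
  rw [Real.norm_eq_abs, Real.norm_eq_abs, abs_of_nonneg hl,
    abs_of_nonneg (Real.rpow_nonneg (by linarith) _)] at h3
  have h7 : (Nat.log 2 n : ℝ) ≤ Real.logb 2 n := by
    rw [Real.le_logb_iff_rpow_le (by norm_num) (by linarith), Real.rpow_natCast]
    exact_mod_cast Nat.pow_log_le_self 2 (by omega)
  have h8 : Real.logb 2 n ≤ (n : ℝ) ^ δ / (2 * (C + 1)) := by
    unfold Real.logb
    rw [div_le_iff₀ hlog2]
    calc Real.log n ≤ Real.log 2 / (2 * (C + 1)) * (n : ℝ) ^ δ := h3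
      _ = _ := by ring
  have hx : (0 : ℝ) ≤ (n : ℝ) ^ δ := by positivity
  have hC : (0 : ℝ) ≤ C := Nat.cast_nonneg C
  push_cast
  have h9 : (C : ℝ) * ((n : ℝ) ^ δ / (2 * (C + 1))) ≤ (n : ℝ) ^ δ / 2 := by
    rw [mul_div_assoc', div_le_div_iff₀ (by positivity) (by positivity)]
    nlinarith
  have h10 : (C : ℝ) * Nat.log 2 n ≤ C * ((n : ℝ) ^ δ / (2 * (C + 1))) :=
    mul_le_mul_of_nonneg_left (h7.trans h8) hC
  linarith

theorem pw_two {δ δ' : ℝ} (h0 : 0 < δ') (h1 : δ' < δ) (h2 : δ' < 1) :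
    ∀ᶠ n : ℕ in atTop, ⌊((2 * n : ℕ) : ℝ) ^ δ'⌋₊ + 1 ≤ ⌊(n : ℝ) ^ δ⌋₊ := by
  have ht : Tendsto (fun j : ℕ => (j : ℝ)) atTop atTop := tendsto_natCast_atTop_atTop
  have h3 := ht.eventually ((tendsto_rpow_atTop (show 0 < δ - δ' by linarith)).eventually_ge_atTop 4)
  filter_upwards [h3, ht.eventually_ge_atTop 1] with n h4 h5
  apply Nat.le_floor
  have hx : (1 : ℝ) ≤ (n : ℝ) ^ δ' := Real.one_le_rpow h5 h0.le
  have h6 : (n : ℝ) ^ δ = (n : ℝ) ^ δ' * (n : ℝ) ^ (δ - δ') := by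
    rw [← Real.rpow_add (by linarith)]
    congr 1
    ring
  have h7 : ((2 * n : ℕ) : ℝ) ^ δ' ≤ 2 * (n : ℝ) ^ δ' := by
    push_cast
    rw [Real.mul_rpow (by norm_num) (by linarith)]
    apply mul_le_mul_of_nonneg_right _ (by linarith)
    calc (2 : ℝ) ^ δ' ≤ 2 ^ (1 : ℝ) := Real.rpow_le_rpow_of_exponent_le (by norm_num) h2.le
      _ = 2 := Real.rpow_one 2
  have h8 : (⌊((2 * n : ℕ) : ℝ) ^ δ'⌋₊ : ℝ) ≤ ((2 * n : ℕ) : ℝ) ^ δ' := Nat.floor_le (by positivity)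
  push_cast at h7 h8 ⊢
  rw [h6]
  nlinarith

theorem cond_null {f : ℕ → ℝ} {s a : ℝ} (hs : 0 ≤ s) (hs1 : s < 1) (ha : a * s < 1)
    (hf : ∃ᶠ N : ℕ in atTop, f N ≤ 2 ^ (ll N) ^ a) : ∃ δ, s < δ ∧ δ < 1 ∧
    ∀ n₁ : ℕ, ∃ N n : ℕ, n₁ ≤ n ∧ 2 ^ (2 ^ ⌊(n : ℝ) ^ δ⌋₊ + 1) ≤ N ∧ 2 ^ (3 * n + 1) ≤ N ∧
      f N ≤ 2 ^ (n / 2) := by
  set b : ℝ := max a 1 with hb
  have hb1 : 1 ≤ b := le_max_right _ _
  have hbs : b * s < 1 := by
    rcases max_cases a 1 with ⟨h, _⟩ | ⟨h, _⟩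
    · rw [hb, h]; exact ha
    · rw [hb, h, one_mul]; exact hs1
  have hf' : ∃ᶠ N : ℕ in atTop, f N ≤ 2 ^ (ll N) ^ b := by
    refine (hf.and_eventually (tendsto_ll.eventually_ge_atTop 1)).mono fun N h => h.1.trans ?_
    apply Real.rpow_le_rpow_of_exponent_le (by norm_num)
    exact Real.rpow_le_rpow_of_exponent_le h.2 (le_max_left _ _)
  have hb0 : 0 < b := by linarith
  have hsb : s < 1 / b := by
    rw [lt_div_iff₀ hb0]
    linarith
  have hb1' : 1 / b ≤ 1 := by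
    rw [div_le_one hb0]
    exact hb1
  set δ : ℝ := (s + 1 / b) / 2 with hδ
  have hδs : s < δ := by rw [hδ]; linarith
  have hδb : δ < 1 / b := by rw [hδ]; linarith
  have hδ0 : 0 < δ := lt_of_le_of_lt hs hδs
  have hδ1 : δ < 1 := lt_of_lt_of_le hδb hb1'
  have hbδ : b * δ < 1 := by
    rw [lt_div_iff₀ hb0] at hδb
    linarith
  refine ⟨δ, hδs, hδ1, fun n₁ => ?_⟩
  -- asymptotics in the iterated logarithm
  have e1 : ∀ᶠ x : ℝ in atTop, 4 * x ^ (b * δ) ≤ x - 1 := by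
    filter_upwards [(tendsto_rpow_atTop (show 0 < 1 - b * δ by linarith)).eventually_ge_atTop 8,
      eventually_ge_atTop 2] with x h1 h2
    have h3 : x = x ^ (b * δ) * x ^ (1 - b * δ) := by
      rw [← Real.rpow_add (by linarith)]
      simp
    have h4 : 0 ≤ x ^ (b * δ) := Real.rpow_nonneg (by linarith) _
    have h5 : x ^ (b * δ) * 8 ≤ x ^ (b * δ) * x ^ (1 - b * δ) := mul_le_mul_of_nonneg_left h1 h4
    linarith
  have e2 : ∀ᶠ x : ℝ in atTop, 12 * x ^ b + 1 ≤ 2 ^ x := by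
    have hlog2 : 0 < Real.log 2 := Real.log_pos (by norm_num)
    have h := (isLittleO_rpow_exp_pos_mul_atTop b hlog2).def (show (0 : ℝ) < 1 / 24 by norm_num)
    filter_upwards [h, eventually_ge_atTop 1] with x h1 h2
    rw [Real.norm_eq_abs, Real.norm_eq_abs, abs_of_nonneg (Real.rpow_nonneg (by linarith) _),
      abs_of_nonneg (Real.exp_nonneg _)] at h1
    rw [Real.rpow_def_of_pos (by norm_num : (0 : ℝ) < 2)]
    have h3 : 1 ≤ x ^ b := Real.one_le_rpow h2 hb0.le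
    linarith
  have e3 : ∀ᶠ x : ℝ in atTop, (n₁ : ℝ) ≤ x ^ b := (tendsto_rpow_atTop hb0).eventually_ge_atTop _
  obtain ⟨N, hfN, ⟨⟨k1, k2⟩, k3⟩, k4, k5⟩ := (hf'.and_eventually
    ((((tendsto_ll.eventually e1).and (tendsto_ll.eventually e2)).and (tendsto_ll.eventually e3)).and
    ((tendsto_ll.eventually_ge_atTop 1).and
      (H529R3.Gap.tendsto_log.eventually_ge_atTop 1)))).exists
  set x := ll N with hx
  set m := ⌈x ^ b⌉₊ with hm
  have hx0 : 0 < x := by linarith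
  have h1b : 1 ≤ x ^ b := Real.one_le_rpow k4 hb0.le
  have hm1 : x ^ b ≤ m := Nat.le_ceil _
  have hm2 : (m : ℝ) < x ^ b + 1 := Nat.ceil_lt_add_one (by linarith)
  have hm3 : (((2 * m : ℕ)) : ℝ) ≤ 4 * x ^ b := by
    push_cast
    linarith
  have hv : (⌊((2 * m : ℕ) : ℝ) ^ δ⌋₊ : ℝ) + 1 ≤ x := by
    have h1 : (⌊((2 * m : ℕ) : ℝ) ^ δ⌋₊ : ℝ) ≤ ((2 * m : ℕ) : ℝ) ^ δ := Nat.floor_le (by positivity)
    have h2 : ((2 * m : ℕ) : ℝ) ^ δ ≤ (4 * x ^ b) ^ δ :=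
      Real.rpow_le_rpow (by positivity) hm3 hδ0.le
    have h3 : (4 * x ^ b) ^ δ ≤ 4 * x ^ (b * δ) := by
      rw [Real.mul_rpow (by norm_num) (by linarith), ← Real.rpow_mul hx0.le]
      apply mul_le_mul_of_nonneg_right _ (Real.rpow_nonneg hx0.le _)
      calc (4 : ℝ) ^ δ ≤ 4 ^ (1 : ℝ) := Real.rpow_le_rpow_of_exponent_le (by norm_num) hδ1.le
        _ = 4 := Real.rpow_one 4
    linarith
  refine ⟨N, 2 * m, ?_, pow_le_of_ll k5 ?_, pow_le_of_ll k5 ?_, ?_⟩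
  · have : (n₁ : ℝ) ≤ m := k3.trans hm1
    have : n₁ ≤ m := by exact_mod_cast this
    omega
  · have h1 : ((2 : ℝ) ^ (⌊((2 * m : ℕ) : ℝ) ^ δ⌋₊ + 1)) ≤ 2 ^ x := by
      rw [← Real.rpow_natCast]
      apply Real.rpow_le_rpow_of_exponent_le (by norm_num)
      push_cast at hv ⊢
      exact hv
    have h2 : (1 : ℝ) ≤ 2 ^ ⌊((2 * m : ℕ) : ℝ) ^ δ⌋₊ := one_le_pow₀ (by norm_num)
    rw [pow_succ] at h1
    push_cast at h1 h2 ⊢
    linarith
  · push_cast at hm3 ⊢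
    linarith
  · rw [Nat.mul_div_cancel_left m (by norm_num)]
    refine hfN.trans ?_
    rw [← Real.rpow_natCast]
    exact Real.rpow_le_rpow_of_exponent_le (by norm_num) hm1

theorem cond_fast {f : ℕ → ℝ} {s : ℝ} (hs : 0 ≤ s)
    (hf : ∀ a : ℝ, a * s < 1 → ∀ᶠ N : ℕ in atTop, 2 ^ (ll N) ^ a < f N) {δ : ℝ} (hδ : s < δ) :
    ∀ᶠ N : ℕ in atTop, ∀ n : ℕ, 2 ^ 2 ^ ⌊(n : ℝ) ^ δ⌋₊ ≤ N → (2 : ℝ) ^ n < f N := by
  have hδ0 : 0 < δ := lt_of_le_of_lt hs hδ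
  set a : ℝ := 2 / (s + δ) with ha
  have hsδ : 0 < s + δ := by linarith
  have ha0 : 0 < a := by positivity
  have has : a * s < 1 := by
    rw [ha, div_mul_eq_mul_div, div_lt_one hsδ]
    linarith
  have haδ : 1 < a * δ := by
    rw [ha, div_mul_eq_mul_div, one_lt_div hsδ]
    linarith
  have e1 : ∀ᶠ x : ℝ in atTop, x + 1 ≤ x ^ (a * δ) := by
    filter_upwards [(tendsto_rpow_atTop (show 0 < a * δ - 1 by linarith)).eventually_ge_atTop 2,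
      eventually_ge_atTop 1] with x h1 h2
    have h3 : x ^ (a * δ) = x * x ^ (a * δ - 1) := by
      conv_rhs => rw [← Real.rpow_one x, ← Real.rpow_mul (by linarith), one_mul,
        ← Real.rpow_add (by linarith)]
      congr 1
      ring
    rw [h3]
    nlinarith
  filter_upwards [hf a has, tendsto_ll.eventually e1, tendsto_ll.eventually_ge_atTop 1] with
    N h1 h2 h3 n hn
  refine lt_of_le_of_lt ?_ h1
  have h4 := le_ll hn
  have h5 : (n : ℝ) ^ δ < ⌊(n : ℝ) ^ δ⌋₊ + 1 := Nat.lt_floor_add_one _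
  have h6 : (n : ℝ) ^ δ ≤ (ll N ^ a) ^ δ := by
    rw [← Real.rpow_mul (by linarith)]
    linarith
  have h7 : (n : ℝ) ≤ ll N ^ a :=
    (Real.rpow_le_rpow_iff (Nat.cast_nonneg n) (Real.rpow_nonneg (by linarith) _) hδ0).1 h6
  rw [← Real.rpow_natCast]
  exact Real.rpow_le_rpow_of_exponent_le (by norm_num) h7

end Pool.Agent.TH678.TG
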